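import Pool.Agent.X269.HE.Fin

/-!
# Good modules of the quotients of the blowings-up of the fixed loci
-/

set_option autoImplicit false

open scoped Pointwise

namespace Pool.Agent.X269.HE

open IsLocalRing Pool.Agent.Y223.INV Pool.Agent.W418.LU2 Pool.Agent.TH188.QS
  Pool.Agent.H918R2.Quad Pool.Agent.X269.KP Pool.Agent.X269.HP Pool.Agent.X269.HQ Polynomial

section good

variable {O E F K : Type} [CommRing O] [IsDomain O] [IsNoetherianRing O] [Field E] [Algebra O E]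
  [IsFractionRing O E] [Field F] [Field K] [Algebra O F] [Algebra E F] [IsScalarTower O E F]
  [Algebra O K] [Algebra F K] [IsScalarTower O F K] [Algebra E K] [IsScalarTower O E K]
  [IsScalarTower E F K]

/-- The anti-invariant forms of degree eight. -/
lemma mi_eight {σ : K ≃ₐ[E] K} {P : Submodule E K} (h2 : (2 : E) ≠ 0) (hσ : ∀ x, σ (σ x) = x)
    (hP : St σ P) : mi σ (P ^ 8) = pl σ (P ^ 4) * mi σ (P ^ 4) := by
  have h4 : P ^ 4 = (P ^ 2) ^ (1 + 1) := by rw [← pow_mul]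
  have h8 : P ^ 8 = (P ^ 2) ^ (3 + 1) := by rw [← pow_mul]
  rw [h8, (parts_pow h2 hσ hP 3).2, h4, (parts_pow h2 hσ hP 1).1, (parts_pow h2 hσ hP 1).2]
  ring

/-- The quotient of the blowing-up of the fixed locus is a good model. -/
theorem bl_good {ι' : Type} (z : ι' → F) (h2 : (2 : E) ≠ 0) (σ : K ≃ₐ[E] K) (τ : K ≃ₐ[O] K)
    (hτ : ∀ x, τ x = σ x) (hσ : ∀ x, σ (σ x) = x)
    (hF : ∀ x, σ x = x ↔ ∃ f : F, algebraMap F K f = x)
    {M I : Submodule O K} (hMfg : M.FG) (hIfg : I.FG) (hsM : ∀ x ∈ M, σ x ∈ M)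
    (hσI : ∀ x ∈ I, σ x ∈ I) (hIM : I ≤ M) {s₀ : O} (hs₀ : s₀ ≠ 0) (hs₀I : ∀ y ∈ M, s₀ • y ∈ I)
    {P : Submodule E K} (hMP : Cm M P) (hP : St σ P) (hP0 : ∃ a ∈ P, a ≠ 0)
    (hv : ∃ a ∈ mi σ (P ^ 2), a ≠ 0) {w₁ : K} (hw₁ : w₁ ≠ 0) (hσw₁ : σ w₁ = -w₁)
    (hz : Submodule.span E (Set.range fun j => w₁ * algebraMap F K (z j)) = mi σ (P ^ 8))
    (hW : ∀ W : ValuationSubring K, (∀ o, algebraMap O K o ∈ W) → ∃ m ∈ M, m ≠ 0 ∧
      (∀ x ∈ M, x / m ∈ W) ∧ Cond τ I W (lo W.toSubring (chart O M m).toSubring) m) :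
    Pool.Agent.W418.GoodModule O z := by
  classical
  have hOK : Function.Injective (algebraMap O K) := by
    rw [IsScalarTower.algebraMap_eq O E K]
    exact (algebraMap E K).injective.comp (IsFractionRing.injective O E)
  have h2K : (2 : K) ≠ 0 := two_ne h2
  have h2O : (2 : O) ≠ 0 := by
    intro h
    apply h2K
    rw [← map_ofNat (algebraMap O K) 2, h, map_zero]
  have hMI : Cm I P := by
    refine ⟨fun y hy => hMP.le y (hIM hy), fun y hy => ?_⟩
    obtain ⟨s, hs, h3⟩ := hMP.ge y hy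
    exact ⟨s₀ * s, mul_ne_zero hs₀ hs, by rw [mul_smul]; exact hs₀I _ h3⟩
  have hMI2 : Cm (M * I) (P ^ 2) := by
    rw [pow_two]
    exact hMP.mul hMI
  have hT : St σ (P ^ 2) := hP.pow 2
  -- nonzero elements
  obtain ⟨p, hp, hp0⟩ := hP0
  have hI0 : ∃ a ∈ I, a ≠ 0 := by
    obtain ⟨s, hs, h3⟩ := hMI.ge p hp
    refine ⟨_, h3, ?_⟩
    rw [Algebra.smul_def]
    exact mul_ne_zero (fun h4 => hs (hOK (by rw [h4, map_zero]))) hp0
  obtain ⟨u, hu, hu0⟩ : ∃ u ∈ pl σ (P ^ 2), u ≠ 0 := by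
    rw [pl_sq h2 hσ hP]
    obtain ⟨a, ha, c, hc, hac⟩ := exists_parts h2 hσ hP hp
    by_cases ha0 : a = 0
    · have hc0 : c ≠ 0 := by
        rintro rfl
        exact hp0 (by rw [hac, ha0, add_zero])
      exact ⟨c * c, Submodule.mem_sup_right (Submodule.mul_mem_mul hc hc), mul_ne_zero hc0 hc0⟩
    · exact ⟨a * a, Submodule.mem_sup_left (Submodule.mul_mem_mul ha ha), mul_ne_zero ha0 ha0⟩
  obtain ⟨v, hv, hv0⟩ := hv
  obtain ⟨s, hs, hu1⟩ := hMI2.ge u hu.1
  obtain ⟨t, ht, hv1⟩ := hMI2.ge v hv.1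
  set w := wd τ (s • u) (t • v) with hw
  have hwuv : w = 2 * (algebraMap O K s * algebraMap O K t * (u * v)) := by
    rw [hw, wd, map_smul, map_smul, hτ, hτ, hu.2, hv.2]
    simp only [Algebra.smul_def]
    ring
  have hs' : algebraMap O K s ≠ 0 := fun h => hs (hOK (by rw [h, map_zero]))
  have ht' : algebraMap O K t ≠ 0 := fun h => ht (hOK (by rw [h, map_zero]))
  have hw0 : w ≠ 0 := by
    rw [hwuv]
    exact mul_ne_zero h2K (mul_ne_zero (mul_ne_zero hs' ht') (mul_ne_zero hu0 hv0))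
  have hτσ : ∀ x, τ (τ x) = x := fun x => by rw [hτ, hτ, hσ]
  have hσw : σ w = -w := by
    rw [← hτ, hw, s_wd hτσ]
  have hF' : ∀ x, τ x = x ↔ ∃ f : F, algebraMap F K f = x := fun x => by rw [hτ]; exact hF x
  obtain ⟨hfg, h0, hregq⟩ := inv_quot (F := F) τ hτσ hF' hMfg hIfg
    (fun x hx => by rw [hτ]; exact hsM x hx) (fun x hx => by rw [hτ]; exact hσI x hx) hIM hI0 hW
    (s • u) hu1 (t • v) hv1 hw0
  rw [← hw] at hfg h0 hregq
  set M' := VF F τ (M * I) * WF F τ (M * I) w with hM'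
  have hrl : Rl w M' (mi σ (P ^ 8)) := by
    have h3 := (Rl.vf hτ hσ hT hMI2 hF).mul (Rl.wf h2 h2O hτ hσ hT hMI2 hF hσw hw0)
    have h4 : (P ^ 2) ^ 2 = P ^ 4 := by rw [← pow_mul]
    rwa [h4, one_mul, ← mi_eight h2 hσ hP] at h3
  obtain ⟨ω, hω⟩ := (hF (w / w₁)).1 (by
    rw [map_div₀, hσw, hσw₁, neg_div_neg_eq])
  have hω0 : ω ≠ 0 := by
    rintro rfl
    rw [map_zero] at hω
    exact div_ne_zero hw0 hw₁ hω.symm
  have hωw : w = w₁ * algebraMap F K ω := by
    rw [hω]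
    field_simp
  let φ : F →ₐ[E] K := IsScalarTower.toAlgHom E F K
  have hspan : (Submodule.span E (Set.range z ^ 1)).map
      ((LinearMap.mulLeft E w₁).comp φ.toLinearMap) = mi σ (P ^ 8) := by
    rw [← hz, pow_one, Submodule.map_span, ← Set.range_comp]
    rfl
  refine goodModule_of (E := E) (D := 1) le_rfl (M' := M') hfg h0 hω0 ?_ ?_ hregq
  · intro f hf
    have h3 := hrl.le f hf
    rw [← hspan, hωw] at h3
    obtain ⟨y, hy, hyf⟩ := h3
    have h4 : y = ω * f := by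
      apply (algebraMap F K).injective
      apply mul_left_cancel₀ hw₁
      have h5 : w₁ * algebraMap F K y = w₁ * algebraMap F K ω * algebraMap F K f := hyf
      rw [h5, map_mul, mul_assoc]
    rwa [← h4]
  · intro n hn
    have h3 : w₁ * algebraMap F K n ∈ mi σ (P ^ 8) := by
      rw [← hspan]
      exact ⟨n, hn, rfl⟩
    obtain ⟨s', hs', f, hf, h4⟩ := hrl.ge _ h3
    refine ⟨s', hs', ?_⟩
    have h5 : ω * f = s' • n := by
      apply (algebraMap F K).injective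
      apply mul_left_cancel₀ hw₁
      rw [map_mul, ← mul_assoc, ← hωw, h4, ← algebraMap_smul', mul_smul_comm]
    have h6 : s' • (n / ω) = f := by
      rw [← smul_div_assoc, ← h5, mul_div_cancel_left₀ _ hω0]
    rw [h6]
    exact hf

end good

theorem bl_goodModule {O E F K : Type} [CommRing O] [IsDedekindDomain O] [Field E] [CharZero E]
    [Algebra O E] [IsFractionRing O E] [Field F] [Algebra E F] [Algebra O F] [IsScalarTower O E F]
    [Field K] [Algebra F K] [Algebra E K] [IsScalarTower E F K] [Algebra O K] [IsScalarTower O E K]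
    [IsScalarTower O F K] (h2 : Squarefree (Ideal.span {(2 : O)}))
    {ι : Type} [Fintype ι] [DecidableEq ι] (C : ι → Hyp O) (hC : ∀ i, (C i).IsDeg)
    (hR : ∀ i, (C i).IsReg ∧ (C i).rev.IsReg) (d : ι → O)
    (hd : ∀ i, (C i).IsDisc (d i) ∧ (C i).rev.IsDisc (d i))
    (hco : ∀ i j, i ≠ j → ∀ 𝔭 : Ideal O, 𝔭.IsPrime → d i ∈ 𝔭 → d j ∈ 𝔭 → (2 : O) ∈ 𝔭)
    (t : Set ι) (ht : ∃ i, i ∉ t) (hord : ∀ i, i ∉ t → (C i).IsOrd ∧ (C i).rev.IsOrd)
    (hsmo : ∀ i ∈ t, (C i).IsSmoothTwo ∧ (C i).rev.IsSmoothTwo)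
    (x y : ι → K) (hx : AlgebraicIndependent E x) (hE : ∀ i, HP.Pt (C i) (x i) (y i))
    (σ : K ≃ₐ[E] K) (hσx : ∀ i, i ∉ t → σ (x i) = x i)
    (hσy : ∀ i, i ∉ t → σ (y i) = -y i - aeval (x i) (C i).h)
    (hσt : ∀ i ∈ t, (σ (x i) = x i ∨ σ (x i) = -x i) ∧ (σ (y i) = y i ∨ σ (y i) = -y i))
    (hσσ : ∀ y, σ (σ y) = y) (hF : ∀ x, σ x = x ↔ ∃ f : F, algebraMap F K f = x)
    {ι' : Type} (z : ι' → F) {w₁ : K} (hw₁ : w₁ ≠ 0) (hσw₁ : σ w₁ = -w₁)
    (hz : Submodule.span E (Set.range fun j => w₁ * algebraMap F K (z j)) =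
      mi σ ((∏ i, forms E (C i).r (x i) (y i)) ^ 8)) :
    Pool.Agent.W418.GoodModule O z := by
  classical
  have hOE : Function.Injective (algebraMap O E) := IsFractionRing.injective O E
  have hO : Function.Injective (algebraMap O K) := by
    rw [IsScalarTower.algebraMap_eq O E K]
    exact (algebraMap E K).injective.comp hOE
  have h2E : (2 : E) ≠ 0 := two_ne_zero
  have hKC : CharZero K := charZero_of_injective_algebraMap (algebraMap E K).injective
  have h20 : (2 : K) ≠ 0 := two_ne_zero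
  have h2O : (2 : O) ≠ 0 := by
    intro h
    apply h20
    rw [← map_ofNat (algebraMap O K) 2, h, map_zero]
  let τ : K ≃ₐ[O] K := σ.restrictScalars O
  have hτ : ∀ x, τ x = σ x := fun x => rfl
  obtain ⟨i₁, hi₁⟩ := ht
  have hne : Nonempty ι := ⟨i₁⟩
  have hNM := HC_le (x := x) (y := y) (t := t) hC
  have hMfg : (∏ i, HM C x y i).FG := by
    refine prod_fg _ (fun i => ?_) _
    refine Submodule.fg_span (Set.Finite.union ?_ (Set.finite_singleton _))
    refine ((Finset.range ((C i).r + 1)).finite_toSet.image fun k => x i ^ k).subset ?_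
    rintro z ⟨k, hk, rfl⟩
    exact ⟨k, by simp; omega, rfl⟩
  have hPIle : PI (HM C x y) (HC C x y t) ≤ ∏ i, HM C x y i := PI_le hNM
  have hσM : ∀ i, ∀ w ∈ HM C x y i, τ w ∈ HM C x y i := HM_stable hC τ hσx hσy hσt
  have hσN : ∀ i, ∀ w ∈ HC C x y t i, τ w ∈ HC C x y t i := HC_stable τ hσx hσy hσt
  have h1M : (1 : K) ∈ ∏ i, HM C x y i := by
    have h2 := prod_mem_prod (HM C x y) (fun _ => (1 : K)) Finset.univ fun i _ => HM_one
    rwa [Finset.prod_const_one] at h2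
  have hy₁ : σ (y i₁) ≠ y i₁ := by
    intro h
    rw [hσy i₁ hi₁] at h
    have h1 : aeval (x i₁) (C i₁).branch = 0 := by
      rw [branch_eval (hE i₁)]
      have h3 : 2 * y i₁ + aeval (x i₁) (C i₁).h = 0 := by linear_combination -h
      rw [h3]
      norm_num
    have h3 : (C i₁).branch = 0 := by
      rw [← aeval_map_algebraMap E] at h1
      have h4 := (transcendental_iff.1 (hx.transcendental i₁)) _ h1
      exact (Polynomial.map_eq_zero_iff (IsFractionRing.injective O E)).1 h4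
    have h4 : (2 : O[X]) ∉ (⊥ : Ideal O[X]) := by
      rw [Ideal.mem_bot]
      intro h5
      apply h20
      have h6 := congrArg (aeval (x i₁)) h5
      rwa [map_ofNat, map_zero] at h6
    refine (hR i₁).1 ⊥ Ideal.isPrime_bot h4 1 (by rw [Ideal.mem_bot]; exact one_ne_zero) ?_
    rw [h3, mul_zero]
    exact Ideal.zero_mem _
  have hy₁M : y i₁ ∈ ∏ i, HM C x y i := by
    have h2 := prod_mem_prod (HM C x y) (Function.update (fun _ => (1 : K)) i₁ (y i₁))
      Finset.univ (by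
        intro j _
        by_cases hj : j = i₁
        · subst hj
          rw [Function.update_self]
          exact HM_y
        · rw [Function.update_of_ne hj]
          exact HM_one)
    rw [Finset.prod_update_of_mem (Finset.mem_univ i₁), Finset.prod_const_one, mul_one] at h2
    exact h2
  -- the conditions at the points
  have hcond := prod_cond (HM C x y) (HC C x y t) τ hσσ ⟨y i₁, hy₁M, hy₁⟩
    (fun i => HM_one) hNM (fun i => by
      refine ⟨2, ?_, h20⟩
      have h3 : (2 : K) = 2 * x i ^ 0 := by rw [pow_zero, mul_one]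
      rw [h3, HC]
      split_ifs
      · exact Submodule.subset_span (Or.inl ⟨0, Nat.zero_le _, rfl⟩)
      · exact Submodule.subset_span (Or.inl ⟨0, Nat.zero_le _, rfl⟩)) (by
      intro W hOW
      refine ⟨fun i => lh W (C i).r (x i), ?_, fun Q hQ => ?_⟩
      · intro i
        refine ⟨?_, lh_ne _, HM_div (T := W.toSubring) hOW (lx_mem _) (ly_mem (hC i) (hE i) hOW)⟩
        change lh W (C i).r (x i) ∈ HM C x y i
        unfold lh
        split_ifs
        · exact HM_one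
        · exact HM_pow le_rfl
      · exact hyp_pt hO hx hC hE hR d hd hco (fun 𝔭 h𝔭 _ => notMem_sq h2 𝔭 h𝔭) ⟨i₁, hi₁⟩ hord hsmo
          τ hσx hσy hσt hσσ hOW hQ)
  -- the generic fibre
  set P : Submodule E K := ∏ i, forms E (C i).r (x i) (y i) with hP
  have hL : ∀ l : E, ∃ r : O, r ≠ 0 ∧ ∃ o : O,
      algebraMap O K r * algebraMap E K l = algebraMap O K o := by
    intro l
    obtain ⟨c, e, he, rfl⟩ := IsFractionRing.div_surjective (A := O) l
    have he0 : e ≠ 0 := nonZeroDivisors.ne_zero he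
    refine ⟨e, he0, c, ?_⟩
    have he1 : algebraMap O K e ≠ 0 := (map_ne_zero_iff _ hO).2 he0
    rw [map_div₀, ← IsScalarTower.algebraMap_apply O E K, ← IsScalarTower.algebraMap_apply O E K]
    field_simp
  have hMP : Cm (∏ i, HM C x y i) P := by
    refine ⟨fun w hw => prod_le_L (HM C x y) (fun i => forms E (C i).r (x i) (y i))
      (fun i => HM_le_forms) Finset.univ w hw, fun w hw => ?_⟩
    obtain ⟨r, hr, h1⟩ := prod_ge_L (R := O) hO hL (HM C x y)
      (fun i => forms E (C i).r (x i) (y i)) (fun i => forms_ge hL) Finset.univ w hw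
    refine ⟨r, hr, ?_⟩
    rw [Algebra.smul_def]
    exact h1
  have hst : ∀ i, St σ (forms E (C i).r (x i) (y i)) := by
    intro i
    refine forms_stable (hC i) ?_
    by_cases hi : i ∈ t
    · exact Or.inr (hσt i hi)
    · exact Or.inl ⟨hσx i hi, hσy i hi⟩
  have hPst : St σ P := St.prod _ hst
  have hv : ∃ a ∈ mi σ (P ^ 2), a ≠ 0 := by
    have h3 := hMP.le _ h1M
    have h4 := hMP.le _ hy₁M
    refine ⟨1 * (y i₁ - σ (y i₁)), ?_, ?_⟩
    · rw [pow_two]
      refine pm_le (Submodule.mul_mem_mul ⟨h3, map_one σ⟩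
        ⟨Submodule.sub_mem _ h4 (hPst _ h4), ?_⟩)
      rw [map_sub, hσσ, neg_sub]
    · rw [one_mul]
      exact fun h => hy₁ (sub_eq_zero.1 h).symm
  refine bl_good z h2E σ τ hτ hσσ hF hMfg (fg_of_le hPIle hMfg) (prod_stable _ τ hσM _) ?_ hPIle
    h2O ?_ hMP hPst ⟨1, hMP.le 1 h1M, one_ne_zero⟩ hv hw₁ hσw₁ hz hcond
  · refine PI_ind ?_ ?_ ?_
    · rw [map_zero]; exact Submodule.zero_mem _
    · intro x y hx hy
      rw [map_add]; exact Submodule.add_mem _ hx hy
    · intro i x' hx y' hy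
      rw [map_mul]
      exact (le_iSup (fun i => HC C x y t i * ∏ j ∈ Finset.univ.erase i, HM C x y j) i)
        (Submodule.mul_mem_mul (hσN i x' hx) (prod_stable _ τ hσM _ y' hy))
  · intro w hw
    rw [← Finset.mul_prod_erase Finset.univ (HM C x y) (Finset.mem_univ i₁)] at hw
    refine Submodule.mul_induction_on hw ?_ ?_
    · intro u hu v hv
      have h1 : (2 : O) • (u * v) = (2 * u) * v := by
        rw [Algebra.smul_def, map_ofNat]
        ring
      rw [h1]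
      refine (le_iSup (fun i => HC C x y t i * ∏ j ∈ Finset.univ.erase i, HM C x y j) i₁)
        (Submodule.mul_mem_mul ?_ hv)
      have h3 : ∀ w ∈ HM C x y i₁, 2 * w ∈ HC C x y t i₁ := by
        refine HM_ind ?_ ?_ ?_ ?_ ?_
        · rw [mul_zero]; exact Submodule.zero_mem _
        · intro a b ha hb
          rw [mul_add]; exact Submodule.add_mem _ ha hb
        · intro r a ha
          rw [mul_left_comm, ← Algebra.smul_def]
          exact Submodule.smul_mem _ _ ha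
        · intro k hk
          rw [HC, if_neg hi₁]
          exact Submodule.subset_span (Or.inl ⟨k, hk, rfl⟩)
        · rw [HC, if_neg hi₁]
          have h4 : (2 : K) * y i₁ = (2 : O) • y i₁ := by
            rw [Algebra.smul_def, map_ofNat]
          rw [h4]
          exact Submodule.smul_mem _ _ (Submodule.subset_span (by simp))
      exact h3 u hu
    · intro u v hu hv
      rw [smul_add]
      exact Submodule.add_mem _ hu hv

open NumberField in
theorem bl_of_data {E : Type} [Field E] [NumberField E]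
    (h2 : Squarefree (Ideal.span {(2 : 𝓞 E)}))
    {n : ℕ} (C : Fin (n + 1) → Hyp (𝓞 E)) (hC : ∀ i, (C i).IsDeg)
    (hR : ∀ i, ∀ 𝔪 : Ideal (𝓞 E)[X], 𝔪.IsMaximal → 2 ∉ 𝔪 →
      (C i).branch ∉ 𝔪 ^ 2 ∧ (C i).rev.branch ∉ 𝔪 ^ 2)
    (d : Fin (n + 1) → 𝓞 E) (hd : ∀ i, (C i).IsDisc (d i) ∧ (C i).rev.IsDisc (d i))
    (hco : ∀ i j, i ≠ j → ∀ 𝔭 : Ideal (𝓞 E), 𝔭.IsPrime → d i ∈ 𝔭 → d j ∈ 𝔭 → 2 ∈ 𝔭)
    (T : Set (Fin (n + 1))) (hT : ∃ i, i ∉ T)
    (hord : ∀ i, i ∉ T → (C i).IsOrd ∧ (C i).rev.IsOrd)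
    (hsmo : ∀ i ∈ T, (C i).IsSmoothTwo ∧ (C i).rev.IsSmoothTwo)
    {F K : Type} [Field F] [Field K] [Algebra E F] [Algebra E K] [Algebra F K]
    [IsScalarTower E F K] [Algebra (𝓞 E) F] [IsScalarTower (𝓞 E) E F]
    (x y : Fin (n + 1) → K)
    (hx : AlgebraicIndependent E x)
    (hE : ∀ i, y i ^ 2 + aeval (x i) ((C i).h.map (algebraMap (𝓞 E) E)) * y i =
      aeval (x i) ((C i).f.map (algebraMap (𝓞 E) E)))
    (hK : IntermediateField.adjoin E (Set.range x ∪ Set.range y) = ⊤)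
    (σ : K ≃ₐ[E] K)
    (hσ : ∀ i, i ∉ T → σ (x i) = x i ∧
      σ (y i) = -y i - aeval (x i) ((C i).h.map (algebraMap (𝓞 E) E)))
    (hσt : ∀ i ∈ T, (σ (x i) = x i ∨ σ (x i) = -x i) ∧ (σ (y i) = y i ∨ σ (y i) = -y i))
    (hσF : ∀ z, σ z = z ↔ ∃ f : F, algebraMap F K f = z)
    {N : ℕ} (z : Fin (N + 1) → F) {w₁ : K} (hw₁ : w₁ ≠ 0) (hσw₁ : σ w₁ = -w₁)
    (hz : ∀ w : K, w ∈ Submodule.span E (Set.range fun j => w₁ * algebraMap F K (z j)) ↔
      w ∈ (∏ i, forms E (C i).r (x i) (y i)) ^ 8 ∧ σ w = -w) :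
    Pool.Agent.W418.GoodModule (𝓞 E) z := by
  classical
  let _ : Algebra (𝓞 E) K := ((algebraMap E K).comp (algebraMap (𝓞 E) E)).toAlgebra
  have h3 : IsScalarTower (𝓞 E) E K := IsScalarTower.of_algebraMap_eq fun _ => rfl
  have h4 : IsScalarTower (𝓞 E) F K := IsScalarTower.of_algebraMap_eq fun a => by
    rw [IsScalarTower.algebraMap_apply (𝓞 E) E K, IsScalarTower.algebraMap_apply E F K,
      IsScalarTower.algebraMap_apply (𝓞 E) E F]
  have hJ : IsJacobsonRing (𝓞 E) := jacO E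
  have hR' : ∀ i, (C i).IsReg ∧ (C i).rev.IsReg := fun i =>
    ⟨isReg_of_max fun 𝔪 h𝔪 h => (hR i 𝔪 h𝔪 h).1, isReg_of_max fun 𝔪 h𝔪 h => (hR i 𝔪 h𝔪 h).2⟩
  have hmap : ∀ i (p : (𝓞 E)[X]), aeval (x i) (p.map (algebraMap (𝓞 E) E)) = aeval (x i) p :=
    fun i p => aeval_map_algebraMap E (x i) p
  have hE' : ∀ i, HP.Pt (C i) (x i) (y i) := by
    intro i
    have h := hE i
    rw [hmap, hmap] at h
    exact h
  have hσx : ∀ i, i ∉ T → σ (x i) = x i := fun i hi => (hσ i hi).1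
  have hσy : ∀ i, i ∉ T → σ (y i) = -y i - aeval (x i) (C i).h := by
    intro i hi
    have h := (hσ i hi).2
    rw [hmap] at h
    exact h
  have hσh : ∀ i, i ∉ T → σ (aeval (x i) (C i).h) = aeval (x i) (C i).h := by
    intro i hi
    have h1 := aeval_algHom_apply ((σ.restrictScalars (𝓞 E) : K ≃ₐ[𝓞 E] K) : K →ₐ[𝓞 E] K)
      (x i) (C i).h
    have h5 : ((σ.restrictScalars (𝓞 E) : K ≃ₐ[𝓞 E] K) : K →ₐ[𝓞 E] K) (x i) = x i := hσx i hi
    rw [h5] at h1
    exact h1.symm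
  have hpm : ∀ a : K, (σ a = a ∨ σ a = -a) → σ (σ a) = a := by
    rintro a (h | h)
    · rw [h, h]
    · rw [h, map_neg, h, neg_neg]
  have hσσ : ∀ x, σ (σ x) = x := by
    intro z
    have hz : z ∈ IntermediateField.adjoin E (Set.range x ∪ Set.range y) := by rw [hK]; trivial
    induction hz using IntermediateField.adjoin_induction with
    | mem z hz =>
      rcases hz with ⟨i, rfl⟩ | ⟨i, rfl⟩
      · by_cases hi : i ∈ T
        · exact hpm _ (hσt i hi).1
        · rw [hσx i hi, hσx i hi]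
      · by_cases hi : i ∈ T
        · exact hpm _ (hσt i hi).2
        · rw [hσy i hi, map_sub, map_neg, hσy i hi, hσh i hi]
          ring
    | algebraMap x => rw [σ.commutes, σ.commutes]
    | add x y _ _ hx hy => rw [map_add, map_add, hx, hy]
    | inv x _ hx => rw [map_inv₀, map_inv₀, hx]
    | mul x y _ _ hx hy => rw [map_mul, map_mul, hx, hy]
  refine bl_goodModule (O := 𝓞 E) h2 C hC hR' d hd hco T hT hord hsmo x y hx hE' σ hσx hσy hσt hσσ
    hσF z hw₁ hσw₁ ?_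
  ext w
  rw [hz w]
  rfl

end Pool.Agent.X269.HE
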