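import Pool.Agent.X269.HE.Parts

/-!
# The module of the quotient and its powers
-/

set_option autoImplicit false

open scoped Pointwise

namespace Pool.Agent.X269.HE

open IsLocalRing Pool.Agent.Y223.INV Pool.Agent.W418.LU2 Pool.Agent.TH188.QS
  Pool.Agent.H918R2.Quad Pool.Agent.TH188.ARC

section pow

variable {O F : Type} [CommRing O] [Field F] [Algebra O F]

lemma pow_div_mem {M : Submodule O F} {j : F} (n : ℕ) :
    ∀ x ∈ M ^ n, x / j ^ n ∈ chart O M j := by
  induction n with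
  | zero =>
    intro x hx
    rw [pow_zero] at hx
    obtain ⟨o, rfl⟩ := Submodule.mem_one.1 hx
    rw [pow_zero, div_one]
    exact Subalgebra.algebraMap_mem _ o
  | succ n ih =>
    intro x hx
    rw [pow_succ] at hx
    refine Submodule.mul_induction_on hx ?_ ?_
    · intro a ha b hb
      rw [pow_succ, mul_div_mul_comm]
      exact Subalgebra.mul_mem _ (ih a ha) (Algebra.subset_adjoin ⟨b, hb, rfl⟩)
    · intro a b ha hb
      rw [add_div]
      exact Subalgebra.add_mem _ ha hb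

lemma chart_pow {M : Submodule O F} {j : F} (hj : j ∈ M) (hj0 : j ≠ 0) {n : ℕ} (hn : 1 ≤ n) :
    chart O (M ^ n) (j ^ n) = chart O M j := by
  apply le_antisymm
  · refine Algebra.adjoin_le ?_
    rintro _ ⟨x, hx, rfl⟩
    exact pow_div_mem n x hx
  · refine Algebra.adjoin_le ?_
    rintro _ ⟨x, hx, rfl⟩
    obtain ⟨k, rfl⟩ : ∃ k, n = k + 1 := ⟨n - 1, by omega⟩
    refine Algebra.subset_adjoin ⟨x * j ^ k, ?_, ?_⟩
    · rw [pow_succ']
      exact Submodule.mul_mem_mul hx (Submodule.pow_mem_pow _ hj k)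
    · rw [pow_succ', mul_div_mul_right _ _ (pow_ne_zero k hj0)]

/-- The charts of the powers are regular. -/
theorem pow_regular [IsNoetherianRing O] {M : Submodule O F} (hM : M.FG)
    (h : ∀ f ∈ M, f ≠ 0 → ∀ (q : Ideal (chart O M f)) [q.IsPrime],
      IsRegularLocalRing (Localization.AtPrime q)) {n : ℕ} (hn : 1 ≤ n) :
    ∀ f ∈ M ^ n, f ≠ 0 → ∀ (q : Ideal (chart O (M ^ n) f)) [q.IsPrime],
      IsRegularLocalRing (Localization.AtPrime q) := by
  intro f hf hf0 q hq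
  refine Pool.Agent.Y223.CC.chart_regular ?_ f hf hf0 q
  intro W hOW Q hQ
  have hne : ∃ g ∈ M, g ≠ 0 := by
    by_contra hcon
    push Not at hcon
    have h1 : M = ⊥ := (Submodule.eq_bot_iff _).2 hcon
    obtain ⟨k, rfl⟩ : ∃ k, n = k + 1 := ⟨n - 1, by omega⟩
    rw [h1, pow_succ, Submodule.mul_bot] at hf
    exact hf0 ((Submodule.mem_bot _).1 hf)
  obtain ⟨g, hg, hg0⟩ := hne
  obtain ⟨j, hj, hj0, hMj⟩ := exists_gen_max hOW hM hg hg0
  have h1 : LR W (M ^ n) (lo W.toSubring (chart O M j).toSubring) := by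
    refine ⟨j ^ n, Submodule.pow_mem_pow _ hj n, pow_ne_zero _ hj0, ?_, ?_⟩
    · intro x hx
      exact (chart_le_V hOW hMj) (pow_div_mem n x hx)
    · rw [chart_pow hj hj0 hn]
  rw [hQ.unique hOW h1]
  exact lo_regular (chart_le_V hOW hMj) (fun P hP => h j hj hj0 P)

end pow

section comm

variable {O E F K : Type} [CommRing O] [IsDomain O] [Field E] [Algebra O E] [Field F] [Field K]
  [Algebra O F] [Algebra O K] [Algebra F K] [IsScalarTower O F K] [Algebra E K]
  [IsScalarTower O E K]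

/-- Commensurable modules in `K`. -/
structure Cm (N : Submodule O K) (P : Submodule E K) : Prop where
  le : ∀ y ∈ N, y ∈ P
  ge : ∀ y ∈ P, ∃ s : O, s ≠ 0 ∧ s • y ∈ N

/-- Commensurable modules in `F` and `K`, up to the factor `w`. -/
structure Rl (w : K) (M : Submodule O F) (P : Submodule E K) : Prop where
  le : ∀ f ∈ M, w * algebraMap F K f ∈ P
  ge : ∀ y ∈ P, ∃ s : O, s ≠ 0 ∧ ∃ f ∈ M, w * algebraMap F K f = s • y

omit [IsScalarTower O F K] [IsScalarTower O E K] [Algebra O E] [Field F] [Algebra O F]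
  [Algebra F K] in
lemma Cm.mul {N N' : Submodule O K} {P P' : Submodule E K} (h : Cm N P) (h' : Cm N' P') :
    Cm (N * N') (P * P') := by
  constructor
  · intro y hy
    refine Submodule.mul_induction_on hy ?_ ?_
    · intro a ha b hb
      exact Submodule.mul_mem_mul (h.le a ha) (h'.le b hb)
    · intro a b ha hb
      exact Submodule.add_mem _ ha hb
  · intro y hy
    refine Submodule.mul_induction_on hy ?_ ?_
    · intro a ha b hb
      obtain ⟨s, hs, h1⟩ := h.ge a ha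
      obtain ⟨t, ht, h2⟩ := h'.ge b hb
      refine ⟨s * t, mul_ne_zero hs ht, ?_⟩
      rw [← smul_mul_smul_comm]
      exact Submodule.mul_mem_mul h1 h2
    · rintro a b ⟨s, hs, h1⟩ ⟨t, ht, h2⟩
      refine ⟨s * t, mul_ne_zero hs ht, ?_⟩
      have h3 : (s * t) • (a + b) = t • (s • a) + s • (t • b) := by
        rw [smul_add, smul_smul, smul_smul, mul_comm t s]
      rw [h3]
      exact Submodule.add_mem _ (Submodule.smul_mem _ _ h1) (Submodule.smul_mem _ _ h2)

omit [IsScalarTower O E K] [Algebra O E] in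
lemma Rl.mul {M M' : Submodule O F} {P P' : Submodule E K} {w w' : K} (h : Rl w M P)
    (h' : Rl w' M' P') : Rl (w * w') (M * M') (P * P') := by
  constructor
  · intro y hy
    refine Submodule.mul_induction_on hy ?_ ?_
    · intro a ha b hb
      rw [map_mul, mul_mul_mul_comm]
      exact Submodule.mul_mem_mul (h.le a ha) (h'.le b hb)
    · intro a b ha hb
      rw [map_add, mul_add]
      exact Submodule.add_mem _ ha hb
  · intro y hy
    refine Submodule.mul_induction_on hy ?_ ?_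
    · intro a ha b hb
      obtain ⟨s, hs, f, hf, h1⟩ := h.ge a ha
      obtain ⟨t, ht, g, hg, h2⟩ := h'.ge b hb
      refine ⟨s * t, mul_ne_zero hs ht, f * g, Submodule.mul_mem_mul hf hg, ?_⟩
      rw [← smul_mul_smul_comm, ← h1, ← h2, map_mul]
      ring
    · rintro a b ⟨s, hs, f, hf, h1⟩ ⟨t, ht, g, hg, h2⟩
      refine ⟨s * t, mul_ne_zero hs ht, t • f + s • g, Submodule.add_mem _
        (Submodule.smul_mem _ _ hf) (Submodule.smul_mem _ _ hg), ?_⟩
      have h3 : (s * t) • (a + b) = t • (s • a) + s • (t • b) := by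
        rw [smul_add, smul_smul, smul_smul, mul_comm t s]
      rw [h3, ← h1, ← h2, map_add, ← algebraMap_smul', ← algebraMap_smul', mul_add,
        mul_smul_comm, mul_smul_comm]

omit [IsScalarTower O E K] [Algebra O E] in
lemma Rl.pow {M : Submodule O F} {P : Submodule E K} {w : K} (h : Rl w M P) (n : ℕ) :
    Rl (w ^ (n + 1)) (M ^ (n + 1)) (P ^ (n + 1)) := by
  induction n with
  | zero => simpa using h
  | succ n ih =>
    rw [pow_succ w, pow_succ M, pow_succ P]
    exact ih.mul h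

variable {σ : K ≃ₐ[E] K} {τ : K ≃ₐ[O] K} {N : Submodule O K} {P : Submodule E K} {w : K}

omit [IsDomain O] [IsScalarTower O F K] [IsScalarTower O E K] [Algebra O E] [Field F]
  [Algebra O F] [Algebra F K] in
lemma Cm.sm (hτ : ∀ x, τ x = σ x) (hσ : ∀ x, σ (σ x) = x) (hP : St σ P) (h : Cm N P) :
    Cm (SM τ N) P := by
  constructor
  · rintro _ ⟨y, hy, rfl⟩
    change τ y ∈ P
    rw [hτ]
    exact hP _ (h.le y hy)
  · intro y hy
    obtain ⟨s, hs, h1⟩ := h.ge _ (hP y hy)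
    refine ⟨s, hs, _, h1, ?_⟩
    change τ (s • σ y) = s • y
    rw [map_smul, hτ, hσ]

omit [IsScalarTower O E K] [Algebra O E] in
/-- The symmetric part. -/
lemma Rl.vf (hτ : ∀ x, τ x = σ x) (hσ : ∀ x, σ (σ x) = x) (hP : St σ P) (h : Cm N P)
    (hF : ∀ x, σ x = x ↔ ∃ f : F, algebraMap F K f = x) :
    Rl 1 (VF F τ N) (pl σ (P ^ 2)) := by
  have h1 := h.mul (h.sm hτ hσ hP)
  rw [← pow_two] at h1
  constructor
  · intro f hf
    rw [one_mul]
    exact ⟨h1.le _ (mem_VF.1 hf), (hF _).2 ⟨f, rfl⟩⟩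
  · rintro y ⟨hy, hy'⟩
    obtain ⟨s, hs, h2⟩ := h1.ge y hy
    obtain ⟨f, hf⟩ := (hF y).1 hy'
    refine ⟨s, hs, s • f, ?_, ?_⟩
    · rw [mem_VF, ← algebraMap_smul', hf]
      exact h2
    · rw [one_mul, ← algebraMap_smul', hf]

/-- The antisymmetric part. -/
lemma Rl.wf (h2 : (2 : E) ≠ 0) (h2O : (2 : O) ≠ 0) (hτ : ∀ x, τ x = σ x)
    (hσ : ∀ x, σ (σ x) = x) (hP : St σ P) (h : Cm N P)
    (hF : ∀ x, σ x = x ↔ ∃ f : F, algebraMap F K f = x) (hw : σ w = -w) (hw0 : w ≠ 0) :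
    Rl w (WF F τ N w) (mi σ (P ^ 2)) := by
  have h3 : ∀ y ∈ WD τ N, y ∈ mi σ (P ^ 2) := by
    intro y hy
    induction hy using Submodule.span_induction with
    | mem y hy =>
      obtain ⟨a, ha, b, hb, rfl⟩ := hy
      rw [wd, hτ, hτ, pow_two]
      refine ⟨Submodule.sub_mem _ (Submodule.mul_mem_mul (hP _ (h.le a ha)) (h.le b hb))
        (Submodule.mul_mem_mul (h.le a ha) (hP _ (h.le b hb))), ?_⟩
      rw [map_sub, map_mul, map_mul, hσ, hσ]
      ring
    | zero => exact Submodule.zero_mem _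
    | add x y _ _ hx hy => exact Submodule.add_mem _ hx hy
    | smul r x _ hx =>
      rw [← algebraMap_smul E r x]
      exact Submodule.smul_mem _ _ hx
  have h4 : ∀ y ∈ mi σ (P ^ 2), ∃ s : O, s ≠ 0 ∧ s • y ∈ WD τ N := by
    intro y hy
    rw [mi_sq h2 hσ hP] at hy
    refine Submodule.mul_induction_on hy ?_ ?_
    · intro a ha b hb
      obtain ⟨s, hs, h3⟩ := h.ge a ha.1
      obtain ⟨t, ht, h4⟩ := h.ge b hb.1
      refine ⟨2 * (s * t), mul_ne_zero h2O (mul_ne_zero hs ht), ?_⟩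
      have h5 := wd_mem (σ := τ) h3 h4
      have h6 : wd τ (s • a) (t • b) = (2 * (s * t)) • (a * b) := by
        rw [wd, map_smul, map_smul, hτ, hτ, ha.2, hb.2]
        simp only [Algebra.smul_def, map_mul, map_ofNat]
        ring
      rwa [h6] at h5
    · rintro a b ⟨s, hs, h1⟩ ⟨t, ht, h2⟩
      refine ⟨s * t, mul_ne_zero hs ht, ?_⟩
      have h3 : (s * t) • (a + b) = t • (s • a) + s • (t • b) := by
        rw [smul_add, smul_smul, smul_smul, mul_comm t s]
      rw [h3]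
      exact Submodule.add_mem _ (Submodule.smul_mem _ _ h1) (Submodule.smul_mem _ _ h2)
  constructor
  · intro f hf
    have h5 := h3 _ (mem_WF.1 hf)
    rwa [mul_comm] at h5
  · intro y hy
    obtain ⟨s, hs, h5⟩ := h4 y hy
    obtain ⟨f, hf⟩ := (hF (y / w)).1 (by rw [map_div₀, hy.2, hw, neg_div_neg_eq])
    have h6 : w * algebraMap F K f = y := by
      rw [hf]
      field_simp
    refine ⟨s, hs, s • f, ?_, ?_⟩
    · rw [mem_WF, ← algebraMap_smul', smul_mul_assoc, mul_comm, h6]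
      exact h5
    · rw [← algebraMap_smul', mul_smul_comm, h6]

end comm

section good

variable {O E F K : Type} [CommRing O] [IsDomain O] [IsNoetherianRing O] [Field E] [Algebra O E]
  [IsFractionRing O E] [Field F] [Field K] [Algebra O F] [Algebra E F] [IsScalarTower O E F]
  [Algebra O K] [Algebra F K] [IsScalarTower O F K] [Algebra E K] [IsScalarTower O E K]
  [IsScalarTower E F K]

/-- The quotient is a good model, if the anti-invariant forms of degree two have no common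
zeros. -/
theorem et_good {ι' : Type} (z : ι' → F) (h2 : (2 : E) ≠ 0) (σ : K ≃ₐ[E] K) (τ : K ≃ₐ[O] K)
    (hτ : ∀ x, τ x = σ x) (hσ : ∀ x, σ (σ x) = x)
    (hF : ∀ x, σ x = x ↔ ∃ f : F, algebraMap F K f = x)
    {M I : Submodule O K} (hMfg : M.FG) (hIfg : I.FG) (hsM : ∀ x ∈ M, σ x ∈ M)
    (hσI : ∀ x ∈ I, σ x ∈ I) (hIM : I ≤ M) {s₀ : O} (hs₀ : s₀ ≠ 0) (hs₀I : ∀ y ∈ M, s₀ • y ∈ I)
    {P : Submodule E K} (hMP : Cm M P) (hP : St σ P) (hP0 : ∃ a ∈ P, a ≠ 0) {k : ℕ} (hk : 1 ≤ k)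
    (hz : Submodule.span E (Set.range fun j => algebraMap F K (z j)) = pl σ (P ^ (2 * k)))
    {b : ℕ} (hfr : (P ^ 2) ^ (b + 1) ≤ (P ^ 2) ^ b * mi σ (P ^ 2))
    (hW : ∀ W : ValuationSubring K, (∀ o, algebraMap O K o ∈ W) → ∃ m ∈ M, m ≠ 0 ∧
      (∀ x ∈ M, x / m ∈ W) ∧ Cond τ I W (lo W.toSubring (chart O M m).toSubring) m) :
    Pool.Agent.W418.GoodModule O z := by
  classical
  have hOK : Function.Injective (algebraMap O K) := by
    rw [IsScalarTower.algebraMap_eq O E K]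
    exact (algebraMap E K).injective.comp (IsFractionRing.injective O E)
  have h2K : (2 : K) ≠ 0 := two_ne h2
  have h2O : (2 : O) ≠ 0 := by
    intro h
    apply h2K
    rw [← map_ofNat (algebraMap O K) 2, h, map_zero]
  have hMI : Cm I P := by
    refine ⟨fun y hy => hMP.le y (hIM hy), fun y hy => ?_⟩
    obtain ⟨s, hs, h3⟩ := hMP.ge y hy
    exact ⟨s₀ * s, mul_ne_zero hs₀ hs, by rw [mul_smul]; exact hs₀I _ h3⟩
  have hMI2 : Cm (M * I) (P ^ 2) := by
    rw [pow_two]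
    exact hMP.mul hMI
  have hT : St σ (P ^ 2) := hP.pow 2
  -- nonzero elements
  obtain ⟨p, hp, hp0⟩ := hP0
  have hI0 : ∃ a ∈ I, a ≠ 0 := by
    obtain ⟨s, hs, h3⟩ := hMI.ge p hp
    refine ⟨_, h3, ?_⟩
    rw [Algebra.smul_def]
    exact mul_ne_zero (fun h4 => hs (hOK (by rw [h4, map_zero]))) hp0
  obtain ⟨u, hu, hu0⟩ : ∃ u ∈ pl σ (P ^ 2), u ≠ 0 := by
    rw [pl_sq h2 hσ hP]
    obtain ⟨a, ha, c, hc, hac⟩ := exists_parts h2 hσ hP hp
    by_cases ha0 : a = 0
    · have hc0 : c ≠ 0 := by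
        rintro rfl
        exact hp0 (by rw [hac, ha0, add_zero])
      exact ⟨c * c, Submodule.mem_sup_right (Submodule.mul_mem_mul hc hc), mul_ne_zero hc0 hc0⟩
    · exact ⟨a * a, Submodule.mem_sup_left (Submodule.mul_mem_mul ha ha), mul_ne_zero ha0 ha0⟩
  obtain ⟨v, hv, hv0⟩ : ∃ v ∈ mi σ (P ^ 2), v ≠ 0 := by
    by_contra hcon
    push Not at hcon
    have h3 : mi σ (P ^ 2) = ⊥ := (Submodule.eq_bot_iff _).2 hcon
    rw [h3, Submodule.mul_bot] at hfr
    have h4 := hfr (Submodule.pow_mem_pow _ (Submodule.pow_mem_pow _ hp 2) (b + 1))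
    exact pow_ne_zero _ (pow_ne_zero _ hp0) ((Submodule.mem_bot _).1 h4)
  obtain ⟨s, hs, hu1⟩ := hMI2.ge u hu.1
  obtain ⟨t, ht, hv1⟩ := hMI2.ge v hv.1
  set w := wd τ (s • u) (t • v) with hw
  have hwuv : w = 2 * (algebraMap O K s * algebraMap O K t * (u * v)) := by
    rw [hw, wd, map_smul, map_smul, hτ, hτ, hu.2, hv.2]
    simp only [Algebra.smul_def]
    ring
  have hs' : algebraMap O K s ≠ 0 := fun h => hs (hOK (by rw [h, map_zero]))
  have ht' : algebraMap O K t ≠ 0 := fun h => ht (hOK (by rw [h, map_zero]))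
  have hw0 : w ≠ 0 := by
    rw [hwuv]
    exact mul_ne_zero h2K (mul_ne_zero (mul_ne_zero hs' ht') (mul_ne_zero hu0 hv0))
  have hτσ : ∀ x, τ (τ x) = x := fun x => by rw [hτ, hτ, hσ]
  have hσw : σ w = -w := by
    rw [← hτ, hw, s_wd hτσ]
  have hF' : ∀ x, τ x = x ↔ ∃ f : F, algebraMap F K f = x := fun x => by rw [hτ]; exact hF x
  obtain ⟨hfg, h0, hregq⟩ := inv_quot (F := F) τ hτσ hF' hMfg hIfg
    (fun x hx => by rw [hτ]; exact hsM x hx) (fun x hx => by rw [hτ]; exact hσI x hx) hIM hI0 hW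
    (s • u) hu1 (t • v) hv1 hw0
  rw [← hw] at hfg h0 hregq
  set M' := VF F τ (M * I) * WF F τ (M * I) w with hM'
  have hrl : Rl w M' (pl σ (P ^ 4) * mi σ (P ^ 4)) := by
    have h3 := (Rl.vf hτ hσ hT hMI2 hF).mul (Rl.wf h2 h2O hτ hσ hT hMI2 hF hσw hw0)
    have h4 : (P ^ 2) ^ 2 = P ^ 4 := by rw [← pow_mul]
    rwa [h4, one_mul] at h3
  -- the power
  set j := k * (b + 1) with hj
  have hj1 : 1 ≤ 2 * j := by
    have h3 : 1 ≤ j := by
      rw [hj]
      exact Nat.mul_pos hk (Nat.succ_pos b)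
    omega
  have hjb : b ≤ 6 * j := by
    have h3 : b + 1 ≤ k * (b + 1) := Nat.le_mul_of_pos_left _ hk
    omega
  have hrl2 := hrl.pow (2 * j - 1)
  rw [Nat.sub_add_cancel hj1, free_eq h2 hσ hP hfr hjb] at hrl2
  obtain ⟨ω, hω⟩ := (hF (w ^ (2 * j))).1 (by
    rw [map_pow, hσw, (even_two_mul j).neg_pow])
  have hω0 : ω ≠ 0 := by
    rintro rfl
    rw [map_zero] at hω
    exact pow_ne_zero _ hw0 hω.symm
  let φ : F →ₐ[E] K := IsScalarTower.toAlgHom E F K
  have hφ : ∀ f, φ f = algebraMap F K f := fun f => rfl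
  have hφi : Function.Injective φ := (algebraMap F K).injective
  have hspan : (Submodule.span E (Set.range z ^ (8 * (b + 1)))).map φ.toLinearMap =
      pl σ (P ^ 2) ^ (8 * j) := by
    rw [← Submodule.span_pow, Submodule.map_pow, Submodule.map_span, ← Set.range_comp]
    have h3 : (φ.toLinearMap ∘ z) = fun j => algebraMap F K (z j) := rfl
    rw [h3, hz, pow_mul P, pl_pow h2 hσ hP, ← pow_mul]
    congr 1
    rw [hj]
    ring
  refine goodModule_of (E := E) (D := 8 * (b + 1)) (by omega) (M' := M' ^ (2 * j)) (hfg.pow _)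
    ?_ hω0 ?_ ?_ (pow_regular hfg hregq hj1)
  · obtain ⟨f, hf, hf0⟩ := h0
    exact ⟨f ^ (2 * j), Submodule.pow_mem_pow _ hf _, pow_ne_zero _ hf0⟩
  · intro f hf
    have h3 := hrl2.le f hf
    rw [← hspan, ← hω, ← map_mul] at h3
    obtain ⟨y, hy, hyf⟩ := h3
    have h4 : y = ω * f := hφi hyf
    rwa [← h4]
  · intro n hn
    have h3 : algebraMap F K n ∈ pl σ (P ^ 2) ^ (8 * j) := by
      rw [← hspan]
      exact ⟨n, hn, rfl⟩
    obtain ⟨s', hs', f, hf, h4⟩ := hrl2.ge _ h3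
    refine ⟨s', hs', ?_⟩
    have h5 : ω * f = s' • n := by
      apply (algebraMap F K).injective
      rw [map_mul, hω, h4, algebraMap_smul']
    have h6 : s' • (n / ω) = f := by
      rw [← smul_div_assoc, ← h5, mul_div_cancel_left₀ _ hω0]
    rw [h6]
    exact hf

end good

end Pool.Agent.X269.HE
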