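import Pool.Agent.X269.HE.Main

/-!
# Good modules of the quotients by involutions without fixed points over number fields
-/

set_option autoImplicit false

namespace Pool.Agent.X269.HE

open Polynomial NumberField Pool.Agent.X269.HP Pool.Agent.X269.HQ

theorem et_of_data {E : Type} [Field E] [NumberField E]
    (h2 : Squarefree (Ideal.span {(2 : 𝓞 E)}))
    {n : ℕ} (C : Fin (n + 1) → Hyp (𝓞 E)) (hC : ∀ i, (C i).IsDeg)
    (hR : ∀ i, ∀ 𝔪 : Ideal (𝓞 E)[X], 𝔪.IsMaximal → 2 ∉ 𝔪 →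
      (C i).branch ∉ 𝔪 ^ 2 ∧ (C i).rev.branch ∉ 𝔪 ^ 2)
    (d : Fin (n + 1) → 𝓞 E) (hd : ∀ i, (C i).IsDisc (d i) ∧ (C i).rev.IsDisc (d i))
    (hco : ∀ i j, i ≠ j → ∀ 𝔭 : Ideal (𝓞 E), 𝔭.IsPrime → d i ∈ 𝔭 → d j ∈ 𝔭 → 2 ∈ 𝔭)
    (T : Set (Fin (n + 1))) (hT : ∃ i, i ∉ T)
    (hord : ∀ i, i ∉ T → (C i).IsOrd ∧ (C i).rev.IsOrd)
    (hsmo : ∀ i ∈ T, (C i).IsSmoothTwo ∧ (C i).rev.IsSmoothTwo)
    {F K : Type} [Field F] [Field K] [Algebra E F] [Algebra E K] [Algebra F K]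
    [IsScalarTower E F K] [Algebra (𝓞 E) F] [IsScalarTower (𝓞 E) E F]
    (x y : Fin (n + 1) → K)
    (hx : AlgebraicIndependent E x)
    (hE : ∀ i, y i ^ 2 + aeval (x i) ((C i).h.map (algebraMap (𝓞 E) E)) * y i =
      aeval (x i) ((C i).f.map (algebraMap (𝓞 E) E)))
    (hK : IntermediateField.adjoin E (Set.range x ∪ Set.range y) = ⊤)
    (σ : K ≃ₐ[E] K)
    (hσ : ∀ i, i ∉ T → σ (x i) = x i ∧
      σ (y i) = -y i - aeval (x i) ((C i).h.map (algebraMap (𝓞 E) E)))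
    (hσt : ∀ i ∈ T, (σ (x i) = x i ∨ σ (x i) = -x i) ∧ (σ (y i) = y i ∨ σ (y i) = -y i))
    (hfree : ∃ i ∈ T, σ (x i) = -x i ∧ σ (y i) = -y i ∧ Even (C i).r ∧ (C i).f.coeff 0 ≠ 0 ∧
      (C i).f.coeff (2 * (C i).r) ≠ 0)
    (hσF : ∀ z, σ z = z ↔ ∃ f : F, algebraMap F K f = z)
    {N k : ℕ} (hk : 1 ≤ k) (z : Fin (N + 1) → F)
    (hz : ∀ w : K, w ∈ Submodule.span E (Set.range fun j => algebraMap F K (z j)) ↔
      w ∈ (∏ i, forms E (C i).r (x i) (y i)) ^ (2 * k) ∧ σ w = w) :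
    Pool.Agent.W418.GoodModule (𝓞 E) z := by
  classical
  let _ : Algebra (𝓞 E) K := ((algebraMap E K).comp (algebraMap (𝓞 E) E)).toAlgebra
  have h3 : IsScalarTower (𝓞 E) E K := IsScalarTower.of_algebraMap_eq fun _ => rfl
  have h4 : IsScalarTower (𝓞 E) F K := IsScalarTower.of_algebraMap_eq fun a => by
    rw [IsScalarTower.algebraMap_apply (𝓞 E) E K, IsScalarTower.algebraMap_apply E F K,
      IsScalarTower.algebraMap_apply (𝓞 E) E F]
  have hJ : IsJacobsonRing (𝓞 E) := jacO E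
  have hR' : ∀ i, (C i).IsReg ∧ (C i).rev.IsReg := fun i =>
    ⟨isReg_of_max fun 𝔪 h𝔪 h => (hR i 𝔪 h𝔪 h).1, isReg_of_max fun 𝔪 h𝔪 h => (hR i 𝔪 h𝔪 h).2⟩
  have hmap : ∀ i (p : (𝓞 E)[X]), aeval (x i) (p.map (algebraMap (𝓞 E) E)) = aeval (x i) p :=
    fun i p => aeval_map_algebraMap E (x i) p
  have hE' : ∀ i, HP.Pt (C i) (x i) (y i) := by
    intro i
    have h := hE i
    rw [hmap, hmap] at h
    exact h
  have hσx : ∀ i, i ∉ T → σ (x i) = x i := fun i hi => (hσ i hi).1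
  have hσy : ∀ i, i ∉ T → σ (y i) = -y i - aeval (x i) (C i).h := by
    intro i hi
    have h := (hσ i hi).2
    rw [hmap] at h
    exact h
  have hσh : ∀ i, i ∉ T → σ (aeval (x i) (C i).h) = aeval (x i) (C i).h := by
    intro i hi
    have h1 := aeval_algHom_apply ((σ.restrictScalars (𝓞 E) : K ≃ₐ[𝓞 E] K) : K →ₐ[𝓞 E] K)
      (x i) (C i).h
    have h5 : ((σ.restrictScalars (𝓞 E) : K ≃ₐ[𝓞 E] K) : K →ₐ[𝓞 E] K) (x i) = x i := hσx i hi
    rw [h5] at h1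
    exact h1.symm
  have hpm : ∀ a : K, (σ a = a ∨ σ a = -a) → σ (σ a) = a := by
    rintro a (h | h)
    · rw [h, h]
    · rw [h, map_neg, h, neg_neg]
  have hσσ : ∀ x, σ (σ x) = x := by
    intro z
    have hz : z ∈ IntermediateField.adjoin E (Set.range x ∪ Set.range y) := by rw [hK]; trivial
    induction hz using IntermediateField.adjoin_induction with
    | mem z hz =>
      rcases hz with ⟨i, rfl⟩ | ⟨i, rfl⟩
      · by_cases hi : i ∈ T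
        · exact hpm _ (hσt i hi).1
        · rw [hσx i hi, hσx i hi]
      · by_cases hi : i ∈ T
        · exact hpm _ (hσt i hi).2
        · rw [hσy i hi, map_sub, map_neg, hσy i hi, hσh i hi]
          ring
    | algebraMap x => rw [σ.commutes, σ.commutes]
    | add x y _ _ hx hy => rw [map_add, map_add, hx, hy]
    | inv x _ hx => rw [map_inv₀, map_inv₀, hx]
    | mul x y _ _ hx hy => rw [map_mul, map_mul, hx, hy]
  obtain ⟨i₁, hi₁, hx₁, hy₁, hr₁, hf₁, hf₂⟩ := hfree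
  refine et_goodModule (O := 𝓞 E) h2 C hC hR' d hd hco T hT hord hsmo x y hx hE' σ hσx hσy hσt hσσ
    hσF i₁ hx₁ hy₁ hr₁ hf₁ hf₂ z hk ?_
  ext w
  rw [hz w]
  rfl

end Pool.Agent.X269.HE
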