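import Pool.Agent.X269.HE.Comm

/-!
# Forms without common zeros
-/

set_option autoImplicit false

open scoped Pointwise

namespace Pool.Agent.X269.HE

open Pool.Agent.X269.HP Pool.Agent.X269.HQ Polynomial

section cube

variable {E K : Type} [Field E] [Field K] [Algebra E K] {σ : K ≃ₐ[E] K} {P U U' : Submodule E K}

lemma cube_le (h2 : (2 : E) ≠ 0) (hσ : ∀ x, σ (σ x) = x) (hP : St σ P) :
    P ^ 3 ≤ P * pl σ (P ^ 2) := by
  have key : ∀ a b c : K, (a ∈ pl σ P ∨ a ∈ mi σ P) → (b ∈ pl σ P ∨ b ∈ mi σ P) →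
      (c ∈ pl σ P ∨ c ∈ mi σ P) → a * b * c ∈ P * pl σ (P ^ 2) := by
    have hpp : ∀ a b, a ∈ pl σ P → b ∈ pl σ P → a * b ∈ pl σ (P ^ 2) := by
      intro a b ha hb
      rw [pow_two]
      exact pp_le (Submodule.mul_mem_mul ha hb)
    have hmm : ∀ a b, a ∈ mi σ P → b ∈ mi σ P → a * b ∈ pl σ (P ^ 2) := by
      intro a b ha hb
      rw [pow_two]
      exact mm_le (Submodule.mul_mem_mul ha hb)
    have h3 : ∀ a b c, a ∈ P → b * c ∈ pl σ (P ^ 2) → a * b * c ∈ P * pl σ (P ^ 2) := by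
      intro a b c ha hbc
      rw [mul_assoc]
      exact Submodule.mul_mem_mul ha hbc
    have e1 : ∀ a b c : K, a * b * c = b * a * c := fun a b c => by ring
    have e2 : ∀ a b c : K, a * b * c = c * a * b := fun a b c => by ring
    rintro a b c (ha | ha) (hb | hb) (hc | hc)
    · exact h3 a b c ha.1 (hpp b c hb hc)
    · rw [e2]
      exact h3 c a b hc.1 (hpp a b ha hb)
    · rw [e1]
      exact h3 b a c hb.1 (hpp a c ha hc)
    · exact h3 a b c ha.1 (hmm b c hb hc)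
    · exact h3 a b c ha.1 (hpp b c hb hc)
    · rw [e1]
      exact h3 b a c hb.1 (hmm a c ha hc)
    · rw [e2]
      exact h3 c a b hc.1 (hmm a b ha hb)
    · exact h3 a b c ha.1 (hmm b c hb hc)
  have h3 : P ^ 3 = P * P * P := by ring
  rw [h3, Submodule.mul_le]
  intro ab hab c hc
  refine Submodule.mul_induction_on hab ?_ ?_
  · intro a ha b hb
    obtain ⟨a₁, ha₁, a₂, ha₂, rfl⟩ := exists_parts h2 hσ hP ha
    obtain ⟨b₁, hb₁, b₂, hb₂, rfl⟩ := exists_parts h2 hσ hP hb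
    obtain ⟨c₁, hc₁, c₂, hc₂, rfl⟩ := exists_parts h2 hσ hP hc
    have h4 : (a₁ + a₂) * (b₁ + b₂) * (c₁ + c₂) =
        (a₁ * b₁ * c₁ + a₁ * b₁ * c₂ + (a₁ * b₂ * c₁ + a₁ * b₂ * c₂)) +
        (a₂ * b₁ * c₁ + a₂ * b₁ * c₂ + (a₂ * b₂ * c₁ + a₂ * b₂ * c₂)) := by ring
    rw [h4]
    exact Submodule.add_mem _
      (Submodule.add_mem _ (Submodule.add_mem _ (key _ _ _ (Or.inl ha₁) (Or.inl hb₁) (Or.inl hc₁))
        (key _ _ _ (Or.inl ha₁) (Or.inl hb₁) (Or.inr hc₂)))
        (Submodule.add_mem _ (key _ _ _ (Or.inl ha₁) (Or.inr hb₂) (Or.inl hc₁))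
        (key _ _ _ (Or.inl ha₁) (Or.inr hb₂) (Or.inr hc₂))))
      (Submodule.add_mem _ (Submodule.add_mem _ (key _ _ _ (Or.inr ha₂) (Or.inl hb₁) (Or.inl hc₁))
        (key _ _ _ (Or.inr ha₂) (Or.inl hb₁) (Or.inr hc₂)))
        (Submodule.add_mem _ (key _ _ _ (Or.inr ha₂) (Or.inr hb₂) (Or.inl hc₁))
        (key _ _ _ (Or.inr ha₂) (Or.inr hb₂) (Or.inr hc₂))))
  · intro a b ha hb
    rw [add_mul]
    exact Submodule.add_mem _ ha hb

/-- The condition for a product. -/
theorem free_mul (h2 : (2 : E) ≠ 0) (hσ : ∀ x, σ (σ x) = x) (hU' : St σ U')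
    (h : U ^ 3 ≤ U * mi σ (U ^ 2)) :
    ((U * U') ^ 2) ^ (1 + 1) ≤ ((U * U') ^ 2) ^ 1 * mi σ ((U * U') ^ 2) := by
  have h3 := cube_le h2 hσ hU'
  calc ((U * U') ^ 2) ^ (1 + 1) = U ^ 3 * U * (U' ^ 3 * U') := by ring
    _ ≤ U * mi σ (U ^ 2) * U * (U' * pl σ (U' ^ 2) * U') :=
      mul_le_mul' (mul_le_mul' h le_rfl) (mul_le_mul' h3 le_rfl)
    _ = (U * U') ^ 2 * (mi σ (U ^ 2) * pl σ (U' ^ 2)) := by ring
    _ ≤ ((U * U') ^ 2) ^ 1 * mi σ ((U * U') ^ 2) := by
      rw [pow_one]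
      refine mul_le_mul' le_rfl ?_
      rw [mul_pow]
      exact mp_le

end cube

section curve

variable {O E K : Type} [CommRing O] [Field E] [Algebra O E] [Field K] [Algebra O K] [Algebra E K]
  [IsScalarTower O E K]

lemma sm_mem {V : Submodule E K} {z : K} (o : O) (h : z ∈ V) : o • z ∈ V := by
  rw [← algebraMap_smul E o z]
  exact V.smul_mem _ h

lemma aeval_mem {V : Submodule E K} {x z : K} {d : ℕ} {p : O[X]} (hp : p.natDegree ≤ d)
    (h : ∀ k ≤ d, x ^ k * z ∈ V) : aeval x p * z ∈ V := by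
  rw [aeval_eq_sum_range' (Nat.lt_succ_of_le hp), Finset.sum_mul]
  refine Submodule.sum_mem _ fun k hk => ?_
  rw [smul_mul_assoc]
  exact sm_mem _ (h k (by simpa [Nat.lt_succ_iff] using hk))

variable {σ : K ≃ₐ[E] K} {C : Hyp O} {x y : K}

lemma forms_pow {r k : ℕ} (hk : k ≤ r) : x ^ k ∈ forms E r x y :=
  Submodule.subset_span (Or.inl ⟨k, hk, rfl⟩)

lemma forms_y {r : ℕ} : y ∈ forms E r x y := Submodule.subset_span (Or.inr rfl)

/-- The anti-invariant forms of a free sign change. -/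
theorem forms_free (hO : Function.Injective (algebraMap O E)) (hC : C.IsDeg)
    (hE : HP.Pt C x y) (hx : σ x = -x) (hy : σ y = -y) (hr : Even C.r)
    (hf0 : C.f.coeff 0 ≠ 0) (hf1 : C.f.coeff (2 * C.r) ≠ 0) :
    forms E C.r x y ^ 3 ≤ forms E C.r x y * mi σ (forms E C.r x y ^ 2) := by
  set r := C.r with hrdef
  set U := forms E r x y with hU
  set N := mi σ (U ^ 2) with hN
  obtain ⟨hr1, hdh, hdf⟩ := hC
  rw [← hrdef] at hr1 hdh hdf
  have hr2 : 2 ≤ r := by
    obtain ⟨c, hc⟩ := hr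
    omega
  -- the anti-invariant forms
  have hN1 : ∀ k, Odd k → k ≤ 2 * r - 1 → x ^ k ∈ N := by
    intro k hk hkr
    refine ⟨?_, by rw [map_pow, hx, hk.neg_pow]⟩
    have h1 : x ^ k = x ^ (min k r) * x ^ (k - min k r) := by
      rw [← pow_add]
      congr 1
      omega
    rw [h1, pow_two]
    exact Submodule.mul_mem_mul (forms_pow (by omega)) (forms_pow (by omega))
  have hN2 : ∀ k, Even k → k ≤ r → x ^ k * y ∈ N := by
    intro k hk hkr
    refine ⟨?_, by rw [map_mul, map_pow, hx, hy, hk.neg_pow, mul_neg]⟩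
    rw [pow_two]
    exact Submodule.mul_mem_mul (forms_pow hkr) forms_y
  set V := U * N with hV
  have hV1 : ∀ m, 1 ≤ m → m ≤ 3 * r - 1 → x ^ m ∈ V := by
    intro m hm hmr
    obtain ⟨a, k, ha, hk, hkr, rfl⟩ : ∃ a k, a ≤ r ∧ Odd k ∧ k ≤ 2 * r - 1 ∧ m = a + k := by
      by_cases h1 : m ≤ 2 * r
      · rcases Nat.even_or_odd m with h2 | h2
        · obtain ⟨c, hc⟩ := h2
          exact ⟨1, m - 1, by omega, ⟨c - 1, by omega⟩, by omega, by omega⟩
        · obtain ⟨c, hc⟩ := h2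
          exact ⟨0, m, by omega, ⟨c, hc⟩, by omega, by omega⟩
      · exact ⟨m - (2 * r - 1), 2 * r - 1, by omega, ⟨r - 1, by omega⟩, by omega, by omega⟩
    rw [pow_add]
    exact Submodule.mul_mem_mul (forms_pow ha) (hN1 k hk hkr)
  have hV2 : ∀ m, m ≤ 2 * r → x ^ m * y ∈ V := by
    intro m hmr
    obtain ⟨a, k, ha, hk, hkr, rfl⟩ : ∃ a k, a ≤ r ∧ Even k ∧ k ≤ r ∧ m = a + k := by
      by_cases h1 : m ≤ r
      · rcases Nat.even_or_odd m with h2 | h2
        · exact ⟨0, m, by omega, h2, h1, by omega⟩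
        · obtain ⟨c, hc⟩ := h2
          exact ⟨1, m - 1, by omega, ⟨c, by omega⟩, by omega, by omega⟩
      · exact ⟨m - r, r, by omega, hr, le_rfl, by omega⟩
    rw [pow_add, mul_assoc]
    exact Submodule.mul_mem_mul (forms_pow ha) (hN2 k hk hkr)
  have hE' : aeval x C.f = y ^ 2 + aeval x C.h * y := hE.symm
  -- the missing powers
  have hf : aeval x C.f ∈ V := by
    rw [hE', pow_two]
    refine Submodule.add_mem _ ?_ ?_
    · have h1 := hN2 0 Even.zero (by omega)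
      rw [pow_zero, one_mul] at h1
      exact Submodule.mul_mem_mul forms_y h1
    · exact aeval_mem hdh fun k hk => hV2 k (by omega)
  have hfr : aeval x C.f * x ^ r ∈ V := by
    have h1 : aeval x C.f * x ^ r = y * (x ^ r * y) + aeval x C.h * (x ^ r * y) := by
      rw [hE']
      ring
    rw [h1]
    refine Submodule.add_mem _ (Submodule.mul_mem_mul forms_y (hN2 r hr le_rfl)) ?_
    refine aeval_mem hdh fun k hk => ?_
    rw [← mul_assoc, ← pow_add]
    exact hV2 _ (by omega)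
  have hdiv : ∀ (o : O) (z : K), o ≠ 0 → o • z ∈ V → z ∈ V := by
    intro o z ho hz
    have h1 : algebraMap O E o ≠ 0 := (map_ne_zero_iff _ hO).2 ho
    have h2 : z = (algebraMap O E o)⁻¹ • (o • z) := by
      rw [← algebraMap_smul E o z, smul_smul, inv_mul_cancel₀ h1, one_smul]
    rw [h2]
    exact V.smul_mem _ hz
  have hsum := aeval_eq_sum_range' (Nat.lt_succ_of_le hdf) x
  have h1V : x ^ 0 ∈ V := by
    refine hdiv (C.f.coeff 0) _ hf0 ?_
    rw [hsum, Finset.sum_range_succ'] at hf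
    have h3 : ∑ k ∈ Finset.range (2 * r), C.f.coeff (k + 1) • x ^ (k + 1) ∈ V := by
      refine Submodule.sum_mem _ fun k hk => sm_mem _ (hV1 _ (by omega) ?_)
      rw [Finset.mem_range] at hk
      omega
    exact (Submodule.add_mem_iff_right _ h3).1 hf
  have h3V : x ^ (3 * r) ∈ V := by
    refine hdiv (C.f.coeff (2 * r)) _ hf1 ?_
    rw [hsum, Finset.sum_range_succ, add_mul, Finset.sum_mul, smul_mul_assoc, ← pow_add] at hfr
    have h3 : ∑ k ∈ Finset.range (2 * r), C.f.coeff k • x ^ k * x ^ r ∈ V := by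
      refine Submodule.sum_mem _ fun k hk => ?_
      rw [smul_mul_assoc, ← pow_add]
      rw [Finset.mem_range] at hk
      exact sm_mem _ (hV1 _ (by omega) (by omega))
    have h4 := (Submodule.add_mem_iff_right _ h3).1 hfr
    have h5 : 2 * r + r = 3 * r := by ring
    rwa [h5] at h4
  have hV3 : ∀ m, m ≤ 3 * r → x ^ m ∈ V := by
    intro m hm
    by_cases h1 : m = 0
    · rw [h1]; exact h1V
    by_cases h2 : m = 3 * r
    · rw [h2]; exact h3V
    exact hV1 m (by omega) (by omega)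
  -- products with `y`
  have hV4 : ∀ a, a ≤ r → aeval x C.f * x ^ a ∈ V := by
    intro a ha
    refine aeval_mem hdf fun k hk => ?_
    rw [← pow_add]
    exact hV3 _ (by omega)
  have hV5 : ∀ a, a ≤ r → aeval x C.h * (x ^ a * y) ∈ V := by
    intro a ha
    refine aeval_mem hdh fun k hk => ?_
    rw [← mul_assoc, ← pow_add]
    exact hV2 _ (by omega)
  have hV6 : ∀ a, a ≤ r → x ^ a * y * y ∈ V := by
    intro a ha
    have h1 : x ^ a * y * y = aeval x C.f * x ^ a - aeval x C.h * (x ^ a * y) := by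
      rw [hE']
      ring
    rw [h1]
    exact Submodule.sub_mem _ (hV4 a ha) (hV5 a ha)
  have hV7 : y * y * y ∈ V := by
    have h1 : y * y * y = aeval x C.f * y - aeval x C.h * aeval x C.f +
        aeval x C.h * (aeval x C.h * y) := by
      rw [hE']
      ring
    rw [h1]
    refine Submodule.add_mem _ (Submodule.sub_mem _ (aeval_mem hdf hV2) ?_) ?_
    · refine aeval_mem hdh fun k hk => ?_
      rw [mul_comm]
      exact hV4 k hk
    · refine aeval_mem hdh fun k hk => ?_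
      rw [mul_left_comm]
      exact hV5 k hk
  have h3 : U ^ 3 = U * U * U := by ring
  rw [h3]
  have hgen : ∀ a ∈ ({z | ∃ k, k ≤ r ∧ z = x ^ k} ∪ {y} : Set K),
      ∀ b ∈ ({z | ∃ k, k ≤ r ∧ z = x ^ k} ∪ {y} : Set K),
      ∀ c ∈ ({z | ∃ k, k ≤ r ∧ z = x ^ k} ∪ {y} : Set K), a * b * c ∈ V := by
    rintro a' (⟨a, ha, rfl⟩ | ha) b' (⟨b, hb, rfl⟩ | hb) c' (⟨c, hc, rfl⟩ | hc)
    · rw [← pow_add, ← pow_add]
      exact hV3 _ (by omega)
    · rw [Set.mem_singleton_iff.1 hc, ← pow_add]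
      exact hV2 _ (by omega)
    · have h1 : x ^ a * b' * x ^ c = x ^ (a + c) * y := by
        rw [Set.mem_singleton_iff.1 hb]
        ring
      rw [h1]
      exact hV2 _ (by omega)
    · rw [Set.mem_singleton_iff.1 hb, Set.mem_singleton_iff.1 hc]
      exact hV6 a ha
    · have h1 : a' * x ^ b * x ^ c = x ^ (b + c) * y := by
        rw [Set.mem_singleton_iff.1 ha]
        ring
      rw [h1]
      exact hV2 _ (by omega)
    · have h1 : a' * x ^ b * c' = x ^ b * y * y := by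
        rw [Set.mem_singleton_iff.1 ha, Set.mem_singleton_iff.1 hc]
        ring
      rw [h1]
      exact hV6 b hb
    · have h1 : a' * b' * x ^ c = x ^ c * y * y := by
        rw [Set.mem_singleton_iff.1 ha, Set.mem_singleton_iff.1 hb]
        ring
      rw [h1]
      exact hV6 c hc
    · rw [Set.mem_singleton_iff.1 ha, Set.mem_singleton_iff.1 hb, Set.mem_singleton_iff.1 hc]
      exact hV7
  rw [hU, forms, Submodule.span_mul_span, Submodule.span_mul_span, Submodule.span_le]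
  rintro _ ⟨_, ⟨a, ha, b, hb, rfl⟩, c, hc, rfl⟩
  exact hgen a ha b hb c hc

end curve

end Pool.Agent.X269.HE
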