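import Pool.Agent.X269.HE.Free

/-!
# Good modules of the quotients by involutions without fixed points
-/

set_option autoImplicit false

open scoped Pointwise

namespace Pool.Agent.X269.HE

open IsLocalRing Pool.Agent.Y223.INV Pool.Agent.W418.LU2 Pool.Agent.TH188.QS
  Pool.Agent.H918R2.Quad Pool.Agent.X269.KP Pool.Agent.X269.HP Pool.Agent.X269.HQ Polynomial

section stable

variable {O E K : Type} [CommRing O] [Field E] [Algebra O E] [Field K] [Algebra O K] [Algebra E K]
  [IsScalarTower O E K] {σ : K ≃ₐ[E] K}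

lemma forms_stable {C : Hyp O} {x y : K} (hC : C.IsDeg)
    (h : (σ x = x ∧ σ y = -y - aeval x C.h) ∨
      ((σ x = x ∨ σ x = -x) ∧ (σ y = y ∨ σ y = -y))) : St σ (forms E C.r x y) := by
  have hpow : ∀ k ≤ C.r, σ (x ^ k) ∈ forms E C.r x y := by
    intro k hk
    have h1 : σ x = x ∨ σ x = -x := by
      rcases h with h | h
      · exact Or.inl h.1
      · exact h.1
    rw [map_pow]
    rcases pow_pm h1 k with h2 | h2
    · rw [h2]
      exact forms_pow hk
    · rw [h2]
      exact Submodule.neg_mem _ (forms_pow hk)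
  have hy : σ y ∈ forms E C.r x y := by
    rcases h with ⟨-, h⟩ | ⟨-, h | h⟩
    · rw [h]
      refine Submodule.sub_mem _ (Submodule.neg_mem _ forms_y) ?_
      have h3 := aeval_mem (V := forms E C.r x y) (x := x) (z := 1) hC.2.1 fun k hk => by
        rw [mul_one]
        exact forms_pow hk
      rwa [mul_one] at h3
    · rw [h]
      exact forms_y
    · rw [h]
      exact Submodule.neg_mem _ forms_y
  intro w hw
  induction hw using Submodule.span_induction with
  | mem w hw =>
    rcases hw with ⟨k, hk, rfl⟩ | hw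
    · exact hpow k hk
    · rw [Set.mem_singleton_iff.1 hw]
      exact hy
  | zero => rw [map_zero]; exact Submodule.zero_mem _
  | add a b _ _ ha hb => rw [map_add]; exact Submodule.add_mem _ ha hb
  | smul r a _ ha => rw [map_smul]; exact Submodule.smul_mem _ r ha

lemma St.prod {ι : Type} {P : ι → Submodule E K} (t : Finset ι) (h : ∀ i, St σ (P i)) :
    St σ (∏ i ∈ t, P i) := by
  classical
  induction t using Finset.induction_on with
  | empty => rw [Finset.prod_empty]; exact St.one
  | insert a t ha ih => rw [Finset.prod_insert ha]; exact (h a).mul ih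

end stable

theorem et_goodModule {O E F K : Type} [CommRing O] [IsDedekindDomain O] [Field E] [CharZero E]
    [Algebra O E] [IsFractionRing O E] [Field F] [Algebra E F] [Algebra O F] [IsScalarTower O E F]
    [Field K] [Algebra F K] [Algebra E K] [IsScalarTower E F K] [Algebra O K] [IsScalarTower O E K]
    [IsScalarTower O F K] (h2 : Squarefree (Ideal.span {(2 : O)}))
    {ι : Type} [Fintype ι] [DecidableEq ι] (C : ι → Hyp O) (hC : ∀ i, (C i).IsDeg)
    (hR : ∀ i, (C i).IsReg ∧ (C i).rev.IsReg) (d : ι → O)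
    (hd : ∀ i, (C i).IsDisc (d i) ∧ (C i).rev.IsDisc (d i))
    (hco : ∀ i j, i ≠ j → ∀ 𝔭 : Ideal O, 𝔭.IsPrime → d i ∈ 𝔭 → d j ∈ 𝔭 → (2 : O) ∈ 𝔭)
    (t : Set ι) (ht : ∃ i, i ∉ t) (hord : ∀ i, i ∉ t → (C i).IsOrd ∧ (C i).rev.IsOrd)
    (hsmo : ∀ i ∈ t, (C i).IsSmoothTwo ∧ (C i).rev.IsSmoothTwo)
    (x y : ι → K) (hx : AlgebraicIndependent E x) (hE : ∀ i, HP.Pt (C i) (x i) (y i))
    (σ : K ≃ₐ[E] K) (hσx : ∀ i, i ∉ t → σ (x i) = x i)
    (hσy : ∀ i, i ∉ t → σ (y i) = -y i - aeval (x i) (C i).h)
    (hσt : ∀ i ∈ t, (σ (x i) = x i ∨ σ (x i) = -x i) ∧ (σ (y i) = y i ∨ σ (y i) = -y i))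
    (hσσ : ∀ y, σ (σ y) = y) (hF : ∀ x, σ x = x ↔ ∃ f : F, algebraMap F K f = x)
    (i₁ : ι) (hx₁ : σ (x i₁) = -x i₁) (hy₁ : σ (y i₁) = -y i₁) (hr₁ : Even (C i₁).r)
    (hf₁ : (C i₁).f.coeff 0 ≠ 0) (hf₂ : (C i₁).f.coeff (2 * (C i₁).r) ≠ 0)
    {ι' : Type} (z : ι' → F) {k : ℕ} (hk : 1 ≤ k)
    (hz : Submodule.span E (Set.range fun j => algebraMap F K (z j)) =
      pl σ ((∏ i, forms E (C i).r (x i) (y i)) ^ (2 * k))) :
    Pool.Agent.W418.GoodModule O z := by
  classical
  have hOE : Function.Injective (algebraMap O E) := IsFractionRing.injective O E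
  have hO : Function.Injective (algebraMap O K) := by
    rw [IsScalarTower.algebraMap_eq O E K]
    exact (algebraMap E K).injective.comp hOE
  have h2E : (2 : E) ≠ 0 := two_ne_zero
  have hKC : CharZero K := charZero_of_injective_algebraMap (algebraMap E K).injective
  have h20 : (2 : K) ≠ 0 := two_ne_zero
  have h2O : (2 : O) ≠ 0 := by
    intro h
    apply h20
    rw [← map_ofNat (algebraMap O K) 2, h, map_zero]
  let τ : K ≃ₐ[O] K := σ.restrictScalars O
  have hτ : ∀ x, τ x = σ x := fun x => rfl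
  have hne : Nonempty ι := ⟨i₁⟩
  have hNM := HC_le (x := x) (y := y) (t := t) hC
  have hMfg : (∏ i, HM C x y i).FG := by
    refine prod_fg _ (fun i => ?_) _
    refine Submodule.fg_span (Set.Finite.union ?_ (Set.finite_singleton _))
    refine ((Finset.range ((C i).r + 1)).finite_toSet.image fun k => x i ^ k).subset ?_
    rintro z ⟨k, hk, rfl⟩
    exact ⟨k, by simp; omega, rfl⟩
  have hPIle : PI (HM C x y) (HC C x y t) ≤ ∏ i, HM C x y i := PI_le hNM
  have hσM : ∀ i, ∀ w ∈ HM C x y i, τ w ∈ HM C x y i := HM_stable hC τ hσx hσy hσt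
  have hσN : ∀ i, ∀ w ∈ HC C x y t i, τ w ∈ HC C x y t i := HC_stable τ hσx hσy hσt
  have h1M : (1 : K) ∈ ∏ i, HM C x y i := by
    have h2 := prod_mem_prod (HM C x y) (fun _ => (1 : K)) Finset.univ fun i _ => HM_one
    rwa [Finset.prod_const_one] at h2
  have hx₁0 : x i₁ ≠ 0 := by
    intro h
    have h1 := hx.transcendental i₁
    rw [h] at h1
    exact h1 (isAlgebraic_zero)
  have hx₁M : x i₁ ∈ ∏ i, HM C x y i := by
    have h2 := prod_mem_prod (HM C x y) (Function.update (fun _ => (1 : K)) i₁ (x i₁))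
      Finset.univ (by
        intro j _
        by_cases hj : j = i₁
        · subst hj
          rw [Function.update_self]
          have h3 := HM_pow (C := C) (x := x) (y := y) (i := j) (k := 1) (hC j).1
          rwa [pow_one] at h3
        · rw [Function.update_of_ne hj]
          exact HM_one)
    rw [Finset.prod_update_of_mem (Finset.mem_univ i₁), Finset.prod_const_one, mul_one] at h2
    exact h2
  -- the conditions at the points
  have hcond := prod_cond (HM C x y) (HC C x y t) τ hσσ
    ⟨x i₁, hx₁M, fun h => by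
      rw [hτ, hx₁] at h
      have h3 : (2 : K) * x i₁ = 0 := by linear_combination -h
      exact mul_ne_zero h20 hx₁0 h3⟩
    (fun i => HM_one) hNM (fun i => by
      refine ⟨2, ?_, h20⟩
      have h3 : (2 : K) = 2 * x i ^ 0 := by rw [pow_zero, mul_one]
      rw [h3, HC]
      split_ifs
      · exact Submodule.subset_span (Or.inl ⟨0, Nat.zero_le _, rfl⟩)
      · exact Submodule.subset_span (Or.inl ⟨0, Nat.zero_le _, rfl⟩)) (by
      intro W hOW
      refine ⟨fun i => lh W (C i).r (x i), ?_, fun Q hQ => ?_⟩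
      · intro i
        refine ⟨?_, lh_ne _, HM_div (T := W.toSubring) hOW (lx_mem _) (ly_mem (hC i) (hE i) hOW)⟩
        change lh W (C i).r (x i) ∈ HM C x y i
        unfold lh
        split_ifs
        · exact HM_one
        · exact HM_pow le_rfl
      · exact hyp_pt hO hx hC hE hR d hd hco (fun 𝔭 h𝔭 _ => notMem_sq h2 𝔭 h𝔭) ht hord hsmo τ
          hσx hσy hσt hσσ hOW hQ)
  -- the generic fibre
  set P : Submodule E K := ∏ i, forms E (C i).r (x i) (y i) with hP
  have hL : ∀ l : E, ∃ r : O, r ≠ 0 ∧ ∃ o : O,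
      algebraMap O K r * algebraMap E K l = algebraMap O K o := by
    intro l
    obtain ⟨c, e, he, rfl⟩ := IsFractionRing.div_surjective (A := O) l
    have he0 : e ≠ 0 := nonZeroDivisors.ne_zero he
    refine ⟨e, he0, c, ?_⟩
    have he1 : algebraMap O K e ≠ 0 := (map_ne_zero_iff _ hO).2 he0
    rw [map_div₀, ← IsScalarTower.algebraMap_apply O E K, ← IsScalarTower.algebraMap_apply O E K]
    field_simp
  have hMP : Cm (∏ i, HM C x y i) P := by
    refine ⟨fun w hw => prod_le_L (HM C x y) (fun i => forms E (C i).r (x i) (y i))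
      (fun i => HM_le_forms) Finset.univ w hw, fun w hw => ?_⟩
    obtain ⟨r, hr, h1⟩ := prod_ge_L (R := O) hO hL (HM C x y)
      (fun i => forms E (C i).r (x i) (y i)) (fun i => forms_ge hL) Finset.univ w hw
    refine ⟨r, hr, ?_⟩
    rw [Algebra.smul_def]
    exact h1
  have hst : ∀ i, St σ (forms E (C i).r (x i) (y i)) := by
    intro i
    refine forms_stable (hC i) ?_
    by_cases hi : i ∈ t
    · exact Or.inr (hσt i hi)
    · exact Or.inl ⟨hσx i hi, hσy i hi⟩
  have hPst : St σ P := St.prod _ hst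
  have hPeq : P = forms E (C i₁).r (x i₁) (y i₁) *
      ∏ i ∈ Finset.univ.erase i₁, forms E (C i).r (x i) (y i) :=
    (Finset.mul_prod_erase Finset.univ _ (Finset.mem_univ i₁)).symm
  have hfr : (P ^ 2) ^ (1 + 1) ≤ (P ^ 2) ^ 1 * mi σ (P ^ 2) := by
    rw [hPeq]
    exact free_mul h2E hσσ (St.prod _ hst)
      (forms_free hOE (hC i₁) (hE i₁) hx₁ hy₁ hr₁ hf₁ hf₂)
  refine et_good z h2E σ τ hτ hσσ hF hMfg (fg_of_le hPIle hMfg) (prod_stable _ τ hσM _) ?_ hPIle
    h2O ?_ hMP hPst ⟨1, hMP.le 1 h1M, one_ne_zero⟩ hk hz hfr hcond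
  · refine PI_ind ?_ ?_ ?_
    · rw [map_zero]; exact Submodule.zero_mem _
    · intro x y hx hy
      rw [map_add]; exact Submodule.add_mem _ hx hy
    · intro i x' hx y' hy
      rw [map_mul]
      exact (le_iSup (fun i => HC C x y t i * ∏ j ∈ Finset.univ.erase i, HM C x y j) i)
        (Submodule.mul_mem_mul (hσN i x' hx) (prod_stable _ τ hσM _ y' hy))
  · intro w hw
    rw [← Finset.mul_prod_erase Finset.univ (HM C x y) (Finset.mem_univ i₁)] at hw
    refine Submodule.mul_induction_on hw ?_ ?_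
    · intro u hu v hv
      have h1 : (2 : O) • (u * v) = (2 * u) * v := by
        rw [Algebra.smul_def, map_ofNat]
        ring
      rw [h1]
      refine (le_iSup (fun i => HC C x y t i * ∏ j ∈ Finset.univ.erase i, HM C x y j) i₁)
        (Submodule.mul_mem_mul ?_ hv)
      have h3 : ∀ w ∈ HM C x y i₁, 2 * w ∈ HC C x y t i₁ := by
        refine HM_ind ?_ ?_ ?_ ?_ ?_
        · rw [mul_zero]; exact Submodule.zero_mem _
        · intro a b ha hb
          rw [mul_add]; exact Submodule.add_mem _ ha hb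
        · intro r a ha
          rw [mul_left_comm, ← Algebra.smul_def]
          exact Submodule.smul_mem _ _ ha
        · intro k hk
          rw [HC]
          split_ifs
          · exact Submodule.subset_span (Or.inl ⟨k, hk, rfl⟩)
          · exact Submodule.subset_span (Or.inl ⟨k, hk, rfl⟩)
        · rw [HC]
          split_ifs
          · exact Submodule.subset_span (Or.inr rfl)
          · have h4 : (2 : K) * y i₁ = (2 : O) • y i₁ := by
              rw [Algebra.smul_def, map_ofNat]
            rw [h4]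
            exact Submodule.smul_mem _ _ (Submodule.subset_span (by simp))
      exact h3 u hu
    · intro u v hu hv
      rw [smul_add]
      exact Submodule.add_mem _ hu hv

end Pool.Agent.X269.HE
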