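import Pool.Agent.X269.HQ.GoodFin

/-!
# Invariant and anti-invariant elements
-/

set_option autoImplicit false

open scoped Pointwise

namespace Pool.Agent.X269.HE

section

variable {E K : Type} [Field E] [Field K] [Algebra E K] (σ : K ≃ₐ[E] K)

/-- The invariant elements. -/
def pl (P : Submodule E K) : Submodule E K where
  carrier := {x | x ∈ P ∧ σ x = x}
  add_mem' := fun {a b} ha hb => ⟨P.add_mem ha.1 hb.1, by rw [map_add, ha.2, hb.2]⟩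
  zero_mem' := ⟨P.zero_mem, map_zero σ⟩
  smul_mem' := fun c a ha => ⟨P.smul_mem c ha.1, by rw [map_smul, ha.2]⟩

/-- The anti-invariant elements. -/
def mi (P : Submodule E K) : Submodule E K where
  carrier := {x | x ∈ P ∧ σ x = -x}
  add_mem' := fun {a b} ha hb => ⟨P.add_mem ha.1 hb.1, by rw [map_add, ha.2, hb.2, neg_add]⟩
  zero_mem' := ⟨P.zero_mem, by rw [map_zero, neg_zero]⟩
  smul_mem' := fun c a ha => ⟨P.smul_mem c ha.1, by rw [map_smul, ha.2, smul_neg]⟩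

variable {σ} {P Q : Submodule E K} {x : K}

lemma mem_pl : x ∈ pl σ P ↔ x ∈ P ∧ σ x = x := Iff.rfl

lemma mem_mi : x ∈ mi σ P ↔ x ∈ P ∧ σ x = -x := Iff.rfl

lemma pl_le : pl σ P ≤ P := fun _ h => h.1

lemma mi_le : mi σ P ≤ P := fun _ h => h.1

lemma pl_mono (h : P ≤ Q) : pl σ P ≤ pl σ Q := fun _ hx => ⟨h hx.1, hx.2⟩

lemma mi_mono (h : P ≤ Q) : mi σ P ≤ mi σ Q := fun _ hx => ⟨h hx.1, hx.2⟩

variable (σ) in
/-- The subspace is stable. -/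
def St (P : Submodule E K) : Prop := ∀ x ∈ P, σ x ∈ P

lemma St.mul (hP : St σ P) (hQ : St σ Q) : St σ (P * Q) := by
  intro x hx
  refine Submodule.mul_induction_on hx ?_ ?_
  · intro a ha b hb
    rw [map_mul]
    exact Submodule.mul_mem_mul (hP a ha) (hQ b hb)
  · intro a b ha hb
    rw [map_add]
    exact Submodule.add_mem _ ha hb

lemma St.one : St σ (1 : Submodule E K) := by
  intro x hx
  obtain ⟨e, rfl⟩ := Submodule.mem_one.1 hx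
  rw [σ.commutes]
  exact Submodule.mem_one.2 ⟨e, rfl⟩

lemma St.pow (hP : St σ P) (n : ℕ) : St σ (P ^ n) := by
  induction n with
  | zero => rw [pow_zero]; exact St.one
  | succ n ih => rw [pow_succ]; exact ih.mul hP

lemma St.pl : St σ (pl σ P) := fun x hx => by rw [hx.2]; exact hx

lemma St.mi : St σ (mi σ P) := fun x hx => by rw [hx.2]; exact Submodule.neg_mem _ hx

lemma exists_parts (h2 : (2 : E) ≠ 0) (hσ : ∀ x, σ (σ x) = x) (hP : St σ P) (hx : x ∈ P) :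
    ∃ a ∈ pl σ P, ∃ b ∈ mi σ P, x = a + b := by
  have h3 : ∀ y : K, (2 : E)⁻¹ • y + (2 : E)⁻¹ • y = y := by
    intro y
    rw [← add_smul, ← two_mul, mul_inv_cancel₀ h2, one_smul]
  refine ⟨(2 : E)⁻¹ • (x + σ x), ⟨P.smul_mem _ (P.add_mem hx (hP x hx)), ?_⟩,
    (2 : E)⁻¹ • (x - σ x), ⟨P.smul_mem _ (P.sub_mem hx (hP x hx)), ?_⟩, ?_⟩
  · rw [map_smul, map_add, hσ, add_comm]
  · rw [map_smul, map_sub, hσ, ← smul_neg, neg_sub]
  · have h4 : (2 : E)⁻¹ • (x + σ x) + (2 : E)⁻¹ • (x - σ x) =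
        (2 : E)⁻¹ • x + (2 : E)⁻¹ • x := by
      rw [smul_add, smul_sub]
      abel
    rw [h4, h3]

/-- Decomposition of the product. -/
lemma mul_parts (h2 : (2 : E) ≠ 0) (hσ : ∀ x, σ (σ x) = x) (hP : St σ P) (hQ : St σ Q)
    (hx : x ∈ P * Q) : ∃ a ∈ pl σ P * pl σ Q ⊔ mi σ P * mi σ Q,
      ∃ b ∈ pl σ P * mi σ Q ⊔ mi σ P * pl σ Q, x = a + b := by
  refine Submodule.mul_induction_on hx ?_ ?_
  · intro p hp q hq
    obtain ⟨a, ha, b, hb, rfl⟩ := exists_parts h2 hσ hP hp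
    obtain ⟨c, hc, d, hd, rfl⟩ := exists_parts h2 hσ hQ hq
    refine ⟨a * c + b * d, Submodule.add_mem_sup (Submodule.mul_mem_mul ha hc)
      (Submodule.mul_mem_mul hb hd), a * d + b * c, Submodule.add_mem_sup
      (Submodule.mul_mem_mul ha hd) (Submodule.mul_mem_mul hb hc), by ring⟩
  · rintro _ _ ⟨a, ha, b, hb, rfl⟩ ⟨c, hc, d, hd, rfl⟩
    exact ⟨a + c, Submodule.add_mem _ ha hc, b + d, Submodule.add_mem _ hb hd, by ring⟩

lemma pp_le : pl σ P * pl σ Q ≤ pl σ (P * Q) := by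
  rw [Submodule.mul_le]
  intro a ha b hb
  exact ⟨Submodule.mul_mem_mul ha.1 hb.1, by rw [map_mul, ha.2, hb.2]⟩

lemma mm_le : mi σ P * mi σ Q ≤ pl σ (P * Q) := by
  rw [Submodule.mul_le]
  intro a ha b hb
  exact ⟨Submodule.mul_mem_mul ha.1 hb.1, by rw [map_mul, ha.2, hb.2, neg_mul_neg]⟩

lemma pm_le : pl σ P * mi σ Q ≤ mi σ (P * Q) := by
  rw [Submodule.mul_le]
  intro a ha b hb
  exact ⟨Submodule.mul_mem_mul ha.1 hb.1, by rw [map_mul, ha.2, hb.2, mul_neg]⟩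

lemma mp_le : mi σ P * pl σ Q ≤ mi σ (P * Q) := by
  rw [Submodule.mul_le]
  intro a ha b hb
  exact ⟨Submodule.mul_mem_mul ha.1 hb.1, by rw [map_mul, ha.2, hb.2, neg_mul]⟩

lemma two_ne (h2 : (2 : E) ≠ 0) : (2 : K) ≠ 0 := by
  rw [← map_ofNat (algebraMap E K) 2]
  exact (map_ne_zero _).2 h2

lemma disj (h2 : (2 : E) ≠ 0) (h : σ x = x) (h' : σ x = -x) : x = 0 := by
  rw [h] at h'
  have h3 : (2 : K) * x = 0 := by linear_combination h'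
  exact (mul_eq_zero.1 h3).resolve_left (two_ne h2)

theorem pl_mul (h2 : (2 : E) ≠ 0) (hσ : ∀ x, σ (σ x) = x) (hP : St σ P) (hQ : St σ Q) :
    pl σ (P * Q) = pl σ P * pl σ Q ⊔ mi σ P * mi σ Q := by
  apply le_antisymm
  · rintro x ⟨hx, hx'⟩
    obtain ⟨a, ha, b, hb, rfl⟩ := mul_parts h2 hσ hP hQ hx
    have h3 : σ a = a := ((sup_le pp_le mm_le : _ ≤ pl σ (P * Q)) ha).2
    have h4 : σ b = -b := ((sup_le pm_le mp_le : _ ≤ mi σ (P * Q)) hb).2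
    have h5 : b = 0 := by
      rw [map_add, h3, add_left_cancel_iff] at hx'
      exact disj h2 hx' h4
    rw [h5, add_zero]
    exact ha
  · exact sup_le pp_le mm_le

theorem mi_mul (h2 : (2 : E) ≠ 0) (hσ : ∀ x, σ (σ x) = x) (hP : St σ P) (hQ : St σ Q) :
    mi σ (P * Q) = pl σ P * mi σ Q ⊔ mi σ P * pl σ Q := by
  apply le_antisymm
  · rintro x ⟨hx, hx'⟩
    obtain ⟨a, ha, b, hb, rfl⟩ := mul_parts h2 hσ hP hQ hx
    have h3 : σ a = a := ((sup_le pp_le mm_le : _ ≤ pl σ (P * Q)) ha).2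
    have h4 : σ b = -b := ((sup_le pm_le mp_le : _ ≤ mi σ (P * Q)) hb).2
    have h5 : a = 0 := by
      rw [map_add, h3, h4, neg_add, add_left_inj] at hx'
      exact disj h2 h3 (by rw [h3]; exact hx')
    rw [h5, zero_add]
    exact hb
  · exact sup_le pm_le mp_le

/-- The anti-invariant elements of a product of invariant elements. -/
lemma pl_of_fix (h : ∀ x ∈ P, σ x = x) : pl σ P = P :=
  le_antisymm pl_le fun x hx => ⟨hx, h x hx⟩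

lemma mi_of_fix (h2 : (2 : E) ≠ 0) (h : ∀ x ∈ P, σ x = x) : mi σ P = ⊥ := by
  rw [Submodule.eq_bot_iff]
  intro x hx
  exact disj h2 (h x hx.1) hx.2

lemma pl_one : pl σ (1 : Submodule E K) = 1 := by
  refine pl_of_fix fun x hx => ?_
  obtain ⟨e, rfl⟩ := Submodule.mem_one.1 hx
  exact σ.commutes e

lemma mi_one (h2 : (2 : E) ≠ 0) : mi σ (1 : Submodule E K) = ⊥ := by
  refine mi_of_fix h2 fun x hx => ?_
  obtain ⟨e, rfl⟩ := Submodule.mem_one.1 hx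
  exact σ.commutes e

variable (h2 : (2 : E) ≠ 0) (hσ : ∀ x, σ (σ x) = x) (hP : St σ P)

include h2 hσ hP

lemma pl_sq : pl σ (P ^ 2) = pl σ P * pl σ P ⊔ mi σ P * mi σ P := by
  rw [pow_two, pl_mul h2 hσ hP hP]

lemma mi_sq : mi σ (P ^ 2) = pl σ P * mi σ P := by
  rw [pow_two, mi_mul h2 hσ hP hP, mul_comm (mi σ P), sup_idem]

lemma mi_sq_mul : mi σ (P ^ 2) * mi σ (P ^ 2) ≤ pl σ (P ^ 2) * pl σ (P ^ 2) := by
  rw [mi_sq h2 hσ hP]
  have h3 : pl σ P * mi σ P * (pl σ P * mi σ P) = pl σ P * pl σ P * (mi σ P * mi σ P) := by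
    ring
  rw [h3, pl_sq h2 hσ hP]
  exact mul_le_mul' le_sup_left le_sup_right

/-- The invariants of the powers. -/
theorem parts_pow (n : ℕ) : pl σ ((P ^ 2) ^ (n + 1)) = pl σ (P ^ 2) ^ (n + 1) ∧
    mi σ ((P ^ 2) ^ (n + 1)) = mi σ (P ^ 2) * pl σ (P ^ 2) ^ n := by
  induction n with
  | zero => simp
  | succ n ih =>
    have hT : St σ (P ^ 2) := hP.pow 2
    constructor
    · rw [pow_succ, pl_mul h2 hσ (hT.pow _) hT, ih.1, ih.2, ← pow_succ]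
      apply sup_eq_left.2
      have h3 : mi σ (P ^ 2) * pl σ (P ^ 2) ^ n * mi σ (P ^ 2) =
          mi σ (P ^ 2) * mi σ (P ^ 2) * pl σ (P ^ 2) ^ n := by ring
      rw [h3]
      calc mi σ (P ^ 2) * mi σ (P ^ 2) * pl σ (P ^ 2) ^ n ≤
          pl σ (P ^ 2) * pl σ (P ^ 2) * pl σ (P ^ 2) ^ n :=
            mul_le_mul' (mi_sq_mul h2 hσ hP) le_rfl
        _ = pl σ (P ^ 2) ^ (n + 1 + 1) := by ring
    · rw [pow_succ, mi_mul h2 hσ (hT.pow _) hT, ih.1, ih.2]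
      have h3 : pl σ (P ^ 2) ^ (n + 1) * mi σ (P ^ 2) = mi σ (P ^ 2) * pl σ (P ^ 2) ^ (n + 1) :=
        mul_comm _ _
      have h4 : mi σ (P ^ 2) * pl σ (P ^ 2) ^ n * pl σ (P ^ 2) =
          mi σ (P ^ 2) * pl σ (P ^ 2) ^ (n + 1) := by ring
      rw [h3, h4, sup_idem]

theorem pl_pow (n : ℕ) : pl σ ((P ^ 2) ^ n) = pl σ (P ^ 2) ^ n := by
  rcases n with _ | n
  · rw [pow_zero, pow_zero, pl_one]
  · exact (parts_pow h2 hσ hP n).1

omit hσ hP in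
lemma mi_mul_mi : mi σ (mi σ P * mi σ Q) = ⊥ := by
  refine mi_of_fix h2 fun x hx => ?_
  exact (mm_le hx).2

/-- The anti-invariant forms have no common zeros. -/
theorem free_pow {b : ℕ} (hfr : (P ^ 2) ^ (b + 1) ≤ (P ^ 2) ^ b * mi σ (P ^ 2)) :
    pl σ (P ^ 2) ^ (b + 2) ≤ pl σ (P ^ 2) ^ b * (mi σ (P ^ 2) * mi σ (P ^ 2)) := by
  set T := P ^ 2 with hT
  set N := mi σ T * mi σ T with hN
  have hTst : St σ T := hP.pow 2
  have h3 : T ^ (b + 2) ≤ T ^ b * N := by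
    calc T ^ (b + 2) = T ^ (b + 1) * T := by rw [← pow_succ]
      _ ≤ T ^ b * mi σ T * T := mul_le_mul' hfr le_rfl
      _ = T ^ (b + 1) * mi σ T := by ring
      _ ≤ T ^ b * mi σ T * mi σ T := mul_le_mul' hfr le_rfl
      _ = T ^ b * N := by rw [hN, mul_assoc]
  have hNfix : ∀ x ∈ N, σ x = x := fun x hx => (mm_le hx).2
  have hNst : St σ N := fun x hx => by rw [hNfix x hx]; exact hx
  have h4 := pl_mono (σ := σ) h3
  rw [pl_pow h2 hσ hP, pl_mul h2 hσ (hTst.pow b) hNst, pl_of_fix hNfix, mi_of_fix h2 hNfix,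
    Submodule.mul_bot, sup_bot_eq, pl_pow h2 hσ hP] at h4
  exact h4

theorem free_pow' {b : ℕ} (hfr : (P ^ 2) ^ (b + 1) ≤ (P ^ 2) ^ b * mi σ (P ^ 2)) {m : ℕ}
    (hm : b ≤ m) (j : ℕ) : pl σ (P ^ 2) ^ (m + 2 * j) ≤ pl σ (P ^ 2) ^ m * mi σ (P ^ 2) ^ (2 * j) := by
  have h3 : ∀ m, b ≤ m → pl σ (P ^ 2) ^ (m + 2) ≤ pl σ (P ^ 2) ^ m * (mi σ (P ^ 2)) ^ 2 := by
    intro m hm
    obtain ⟨c, rfl⟩ := Nat.exists_eq_add_of_le hm
    calc pl σ (P ^ 2) ^ (b + c + 2) = pl σ (P ^ 2) ^ c * pl σ (P ^ 2) ^ (b + 2) := by ring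
      _ ≤ pl σ (P ^ 2) ^ c * (pl σ (P ^ 2) ^ b * (mi σ (P ^ 2) * mi σ (P ^ 2))) :=
        mul_le_mul' le_rfl (free_pow h2 hσ hP hfr)
      _ = pl σ (P ^ 2) ^ (b + c) * (mi σ (P ^ 2)) ^ 2 := by ring
  induction j with
  | zero => simp
  | succ j ih =>
    calc pl σ (P ^ 2) ^ (m + 2 * (j + 1)) = pl σ (P ^ 2) ^ (m + 2 * j + 2) := by ring
      _ ≤ pl σ (P ^ 2) ^ (m + 2 * j) * (mi σ (P ^ 2)) ^ 2 := h3 _ (by omega)
      _ ≤ pl σ (P ^ 2) ^ m * mi σ (P ^ 2) ^ (2 * j) * (mi σ (P ^ 2)) ^ 2 := mul_le_mul' ih le_rfl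
      _ = pl σ (P ^ 2) ^ m * mi σ (P ^ 2) ^ (2 * (j + 1)) := by ring

/-- The power of the module of the quotient. -/
theorem free_eq {b : ℕ} (hfr : (P ^ 2) ^ (b + 1) ≤ (P ^ 2) ^ b * mi σ (P ^ 2)) {j : ℕ}
    (hj : b ≤ 6 * j) :
    (pl σ (P ^ 4) * mi σ (P ^ 4)) ^ (2 * j) = pl σ (P ^ 2) ^ (8 * j) := by
  have h4 : P ^ 4 = (P ^ 2) ^ (1 + 1) := by rw [← pow_mul]
  have h5 := parts_pow h2 hσ hP 1
  rw [h4, h5.1, h5.2, pow_one]
  have h6 : (pl σ (P ^ 2) ^ (1 + 1) * (mi σ (P ^ 2) * pl σ (P ^ 2))) ^ (2 * j) =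
      pl σ (P ^ 2) ^ (6 * j) * mi σ (P ^ 2) ^ (2 * j) := by
    have h7 : pl σ (P ^ 2) ^ (1 + 1) * (mi σ (P ^ 2) * pl σ (P ^ 2)) =
      pl σ (P ^ 2) ^ 3 * mi σ (P ^ 2) := by ring
    rw [h7, mul_pow, ← pow_mul]
    congr 2
    ring
  rw [h6]
  apply le_antisymm
  · have h8 : mi σ (P ^ 2) ^ (2 * j) ≤ pl σ (P ^ 2) ^ (2 * j) := by
      rw [pow_mul, pow_mul]
      refine pow_le_pow_left' ?_ j
      rw [pow_two, pow_two (pl σ (P ^ 2))]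
      exact mi_sq_mul h2 hσ hP
    calc pl σ (P ^ 2) ^ (6 * j) * mi σ (P ^ 2) ^ (2 * j) ≤
        pl σ (P ^ 2) ^ (6 * j) * pl σ (P ^ 2) ^ (2 * j) := mul_le_mul' le_rfl h8
      _ = pl σ (P ^ 2) ^ (8 * j) := by rw [← pow_add]; congr 1; ring
  · have h9 : 8 * j = 6 * j + 2 * j := by ring
    rw [h9]
    exact free_pow' h2 hσ hP hfr hj j

end

end Pool.Agent.X269.HE
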